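import Pool.Agent.R866.GR.Defs

/-!
# Project GR, assembly
-/

namespace Pool.Agent.R866.GR

open Classical

theorem qzero (A : Type) (O : Ops A) : QProp A O 0 := by
  intro K
  exact ⟨0, fun U J _ _ F _ _ h f hf _ => h f hf⟩

theorem qone (hD : stmDesc) (hV : stmVec) {A : Type} [Fintype A] (O : Ops A) (k : ℕ) (X : Type)
    [Fintype X] (g : Fin k → X → A) (hg : Gen O (Set.range g))
    (hX : Fintype.card A * (Fintype.card A * k + 1) + 1 ≤ Fintype.card X) : QProp A O 1 := by
  obtain ⟨⟨ν, η, s, star, hν, hs, h1, h2⟩, hp⟩ := hV A k X g hX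
  have hQν : QProp A O ν :=
    hD A O k X g hg 0 ν η s star hν hs (by intro v l b; rw [h1]; simp) h2 (qzero A O)
  have key : ∀ n, 1 ≤ n → QProp A O n → QProp A O 1 := by
    intro n
    induction n using Nat.strong_induction_on with
    | _ n ih =>
      intro hn hQ
      by_cases h : n = 1
      · rwa [h] at hQ
      · obtain ⟨p, hp1, hp2⟩ := Nat.exists_prime_and_dvd h
        obtain ⟨η, s, star, hs, h1, h2⟩ := hp p hp1
        obtain ⟨m, rfl⟩ := hp2
        have hm : 1 ≤ m := by
          rcases Nat.eq_zero_or_pos m with h0 | h0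
          · subst h0; simp at hn
          · exact h0
        refine ih m ?_ hm (hD A O k X g hg (p * m) m (fun v x => m * η v x) s star hm hs ?_ ?_ hQ)
        · have := hp1.two_le
          nlinarith
        · intro v l b
          rw [← Finset.mul_sum, Nat.cast_mul, mul_comm (p : ℤ)]
          exact mul_dvd_mul_left _ (h1 v l b)
        · intro v w
          rw [h2 v w]
          split <;> simp
  exact key ν hν hQν

theorem pos_inj {U : Type} [DecidableEq U] {k : ℕ} : Function.Injective (pos (U := U) (k := k)) := by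
  rintro ⟨b, u⟩ ⟨b', u'⟩ h
  have hz := congrFun h Kap.z
  have hx := congrFun h (Kap.x u)
  have hy := congrFun h (Kap.y u)
  cases b <;> cases b' <;> simp [pos] at hz hx hy ⊢
  · exact hy
  · exact hx

theorem cube (hP : stmPath) {A : Type} {O : Ops A} {k : ℕ} {X : Type} (G : Gadget A O k X)
    (hQ : QProp A O 1) : ∃ n : ℕ, CubeProp A O (Kap (Fin (n + 1)) k) (pos (true, 0)) := by
  obtain ⟨N₀, h⟩ := hQ 1
  refine ⟨N₀, fun J _ F hF hT Ψ hΨ => ?_⟩
  let dec : Option (J × (Kap (Fin (N₀ + 1)) k → Bool)) → Option (J × Bool × Fin (N₀ + 1)) :=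
    fun w => match w with
    | none => none
    | some (i, t) => if h : ∃ p, pos p = t then some (i, h.choose) else none
  have hdec : ∀ i p, dec (some (i, pos p)) = some (i, p) := by
    intro i p
    have hex : ∃ p', pos (k := k) p' = pos p := ⟨p, rfl⟩
    have : hex.choose = p := pos_inj hex.choose_spec
    simp only [dec]
    rw [dif_pos hex, this]
  have hdec2 : ∀ i t, (∀ p, pos p ≠ t) → dec (some (i, t)) = none := by
    intro i t ht
    simp only [dec]
    rw [dif_neg]
    rintro ⟨p, hp⟩
    exact ht p hp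
  let f : Option (J × Bool × Fin (N₀ + 1)) → A := fun w => match w with
    | none => Ψ none
    | some (i, p) => Ψ (some (i, pos p))
  have hf : f ∘ dec ∈ F := by
    refine h (Fin (N₀ + 1)) J {f | f ∘ dec ∈ F} (by simp) (hF.comap dec) ?_ f ?_ ?_
    · intro f hf
      refine hP A O k X G _ J F hF hT f hf (f ∘ dec) rfl ?_ ?_
      · intro i p
        rw [Function.comp_apply, hdec]
      · intro i t ht
        rw [Function.comp_apply, hdec2 i t ht]
    · intro i v
      simp
    · intro i
      have : {p : Bool × Fin (N₀ + 1) | f (some (i, p)) ≠ f none} ⊆ {(true, 0)} := by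
        intro p hp
        by_contra hne
        apply hp
        show Ψ (some (i, pos p)) = Ψ none
        apply hΨ
        intro h'
        exact hne (pos_inj h')
      calc _ ≤ ({(true, 0)} : Set (Bool × Fin (N₀ + 1))).ncard :=
            Set.ncard_le_ncard this (Set.finite_singleton _)
        _ = 1 := Set.ncard_singleton _
  have hfe : f ∘ dec = Ψ := by
    funext w
    match w with
    | none => rfl
    | some (i, t) =>
      by_cases ht : ∃ p, pos p = t
      · obtain ⟨p, rfl⟩ := ht
        rw [Function.comp_apply, hdec]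
      · push Not at ht
        rw [Function.comp_apply, hdec2 i t ht]
        show Ψ none = _
        rw [hΨ i t]
        intro h'
        exact ht _ h'.symm
  rwa [hfe] at hf

/-- a function depending only on the coordinates in `T`, `|T| ≤ m`, is of the form `h (y ∘ p)` -/
theorem junta_form {A : Type} {N m : ℕ} (hN : 1 ≤ N) (T : Finset (Fin N)) (hT : T.card ≤ m)
    (f : (Fin N → Bool) → A) (hf : ∀ y y', (∀ l ∈ T, y l = y' l) → f y = f y') :
    ∃ (p : Fin m → Fin N) (h : (Fin m → Bool) → A), f = fun y => h (y ∘ p) := by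
  obtain ⟨p, hp⟩ : ∃ p : Fin m → Fin N, ∀ l ∈ T, ∃ j, p j = l := by
    rcases T.eq_empty_or_nonempty with h0 | h0
    · exact ⟨fun _ => ⟨0, hN⟩, by simp [h0]⟩
    · have e := T.equivFin
      obtain ⟨l0, hl0⟩ := h0
      refine ⟨fun j => if hj : (j : ℕ) < T.card then (e.symm ⟨j, hj⟩ : Fin N) else l0, ?_⟩
      intro l hl
      refine ⟨⟨(e ⟨l, hl⟩ : Fin T.card), lt_of_lt_of_le (e ⟨l, hl⟩).2 hT⟩, ?_⟩
      have : ((e ⟨l, hl⟩ : Fin T.card) : ℕ) < T.card := (e ⟨l, hl⟩).2
      simp [this]
  refine ⟨p, fun w => f (fun l => if hl : ∃ j, p j = l then w hl.choose else false), ?_⟩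
  funext y
  apply hf
  intro l hl
  have hex := hp l hl
  simp only [Function.comp_apply]
  rw [dif_pos hex, hex.choose_spec]

theorem all_of_gadget (hL : stmLocal) (hB : stmBase) (hPl : stmPlace) (hS : stmStep) (hP : stmPath)
    {A : Type} [Fintype A] {O : Ops A} {k : ℕ} {X : Type} (G : Gadget A O k X)
    (hQ : QProp A O 1) : ∃ m : ℕ, ∀ N : ℕ, 1 ≤ N → ∀ F : Set ((Fin N → Bool) → A), Closed O F →
      (∀ (p : Fin m → Fin N) (h : (Fin m → Bool) → A), (fun y => h (y ∘ p)) ∈ F) →
      F = Set.univ := by
  obtain ⟨n, hC⟩ := cube hP G hQ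
  set D : ℕ := Fintype.card (Kap (Fin (n + 1)) k) + 2 * (Fintype.card A * k) with hD
  refine ⟨Fintype.card A * k * D + D, fun N hN F hF hj => ?_⟩
  have hjunta : ∀ (T : Finset (Fin N)) (f : (Fin N → Bool) → A),
      T.card ≤ Fintype.card A * k * D + D → (∀ y y', (∀ l ∈ T, y l = y' l) → f y = f y') →
      f ∈ F := by
    intro T f hT hf
    obtain ⟨p, h, rfl⟩ := junta_form hN T hT f hf
    exact hj p h
  rcases le_or_gt N (Fintype.card A * k * D + D) with hNm | hNm
  · apply Set.eq_univ_of_forall
    intro f
    apply hjunta Finset.univ f (by simpa using hNm)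
    intro y y' h
    have : y = y' := funext fun l => h l (Finset.mem_univ l)
    rw [this]
  · have h0 : Good F D := hB hL A O k X G N D F hF (fun T f hT hf => hjunta T f (by omega) hf)
    have hgood : ∀ d, D ≤ d → Good F d := by
      intro d hd
      induction d, hd using Nat.le_induction with
      | base => exact h0
      | succ d hd ih =>
        exact hS hL hPl A O k X G _ _ hC N d F hF (by omega) ih
    have hG := hgood N (by omega)
    apply Set.eq_univ_of_forall
    intro f
    have := hG (Fin N → Bool) (fun _ => Finset.univ) (fun y => y) (fun y => some y)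
      (by simp) (by
        intro i y
        constructor
        · intro h l _
          rw [Option.some_inj] at h
          rw [h]
        · intro h
          congr 1
          funext l
          exact h l (Finset.mem_univ l)) (fun w => (w.map f).getD (f fun _ => false))
    exact this

/-- generating sets restrict along injections -/
theorem gen_restrict {A : Type} {O : Ops A} {Y Z : Type} [Nonempty A] (j : Z → Y)
    (hj : Function.Injective j) {G : Set (Y → A)} (hG : Gen O G) :
    Gen O ((fun f : Y → A => f ∘ j) '' G) := by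
  intro F hF hGF
  have h := hG {f | f ∘ j ∈ F} (hF.comap j) (fun f hf => hGF ⟨f, hf, rfl⟩)
  apply Set.eq_univ_of_forall
  intro φ
  obtain ⟨f, hf⟩ : ∃ f : Y → A, f ∘ j = φ :=
    ⟨Function.extend j φ (fun _ => Classical.arbitrary A), Function.extend_comp hj _ _⟩
  have h2 : f ∈ {f | f ∘ j ∈ F} := by rw [h]; trivial
  rw [← hf]
  exact h2

theorem growth_le {A : Type} {O : Ops A} {n : ℕ} (G : Finset (Fin n → A))
    (hG : Gen O (G : Set (Fin n → A))) : growth O n ≤ G.card :=
  Nat.sInf_le ⟨G, rfl, hG⟩

theorem exists_growth {A : Type} [Fintype A] (O : Ops A) (n : ℕ) :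
    ∃ G : Finset (Fin n → A), G.card = growth O n ∧ Gen O (G : Set (Fin n → A)) := by
  have hne : {m : ℕ | ∃ G : Finset (Fin n → A), G.card = m ∧ Gen O (G : Set (Fin n → A))}.Nonempty := by
    refine ⟨_, Finset.univ, rfl, ?_⟩
    intro F _ h
    apply Set.eq_univ_of_forall
    intro f
    exact h (by simp)
  exact Nat.sInf_mem hne

/-- the polylogarithmic bound -/
theorem growth_polylog {A : Type} [Fintype A] [Nonempty A] {O : Ops A} {m : ℕ}
    (h : ∀ N : ℕ, 1 ≤ N → ∀ F : Set ((Fin N → Bool) → A), Closed O F →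
      (∀ (p : Fin m → Fin N) (h : (Fin m → Bool) → A), (fun y => h (y ∘ p)) ∈ F) →
      F = Set.univ) (n N : ℕ) (hN : 1 ≤ N) (hn : n ≤ 2 ^ N) :
    growth O n ≤ N ^ m * Fintype.card ((Fin m → Bool) → A) := by
  obtain ⟨j⟩ : Nonempty (Fin n ↪ (Fin N → Bool)) := by
    apply Function.Embedding.nonempty_of_card_le
    simpa using hn
  let G0 : Finset ((Fin N → Bool) → A) :=
    Finset.univ.image fun x : (Fin m → Fin N) × ((Fin m → Bool) → A) => fun y => x.2 (y ∘ x.1)
  have hG0 : Gen O (G0 : Set ((Fin N → Bool) → A)) := by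
    intro F hF hGF
    apply h N hN F hF
    intro p q
    apply hGF
    simp only [G0, Finset.coe_image, Finset.coe_univ, Set.image_univ]
    exact ⟨(p, q), rfl⟩
  have h1 := gen_restrict j j.injective hG0
  have h2 : Gen O ((G0.image fun f => f ∘ j : Finset (Fin n → A)) : Set (Fin n → A)) := by
    rw [Finset.coe_image]
    exact h1
  calc growth O n ≤ (G0.image fun f => f ∘ j).card := growth_le _ h2
    _ ≤ G0.card := Finset.card_image_le
    _ ≤ (Finset.univ : Finset ((Fin m → Fin N) × ((Fin m → Bool) → A))).card :=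
        Finset.card_image_le
    _ = N ^ m * Fintype.card ((Fin m → Bool) → A) := by
        rw [Finset.card_univ, Fintype.card_prod]
        simp

end Pool.Agent.R866.GR
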