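import Pool.Agent.R866.GR.Defs

/-!
MP_b06d56_al, piece GR-B: the base of the induction.
-/

set_option autoImplicit false

namespace Pool.Agent.R866.GR

open Classical

theorem base : stmBase := by
  intro hL A _ O k X G N d F hF hT ι _ T τ z hcard hz μ
  refine hL A O k X G (Fin N → Bool) ι F hF z ?_ μ
  clear μ
  intro μ hμ
  set S : Finset ι := Finset.univ.filter (fun i => μ (some i) ≠ μ none) with hS
  have hSc : S.card ≤ Fintype.card A * k := by
    refine le_trans (le_of_eq ?_) hμ
    rw [← Set.ncard_coe_finset]
    congr 1
    ext i
    simp [hS]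
  have hmem : ∀ i, i ∉ S → μ (some i) = μ none := by
    intro i hi
    by_contra h
    exact hi (Finset.mem_filter.2 ⟨Finset.mem_univ _, h⟩)
  refine hT (S.biUnion T) (μ ∘ z) ?_ ?_
  · refine (Finset.card_biUnion_le_card_mul S T d fun i _ => (hcard i).le).trans ?_
    exact Nat.mul_le_mul_right _ hSc
  · have key : ∀ y y' : Fin N → Bool, (∀ l ∈ S.biUnion T, y l = y' l) → ∀ i ∈ S,
        z y = some i → z y' = some i := by
      intro y y' h i hi hy
      rw [hz] at hy ⊢
      intro l hl
      rw [← h l (Finset.mem_biUnion.2 ⟨i, hi, hl⟩)]
      exact hy l hl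
    intro y y' h
    show μ (z y) = μ (z y')
    have h' : ∀ l ∈ S.biUnion T, y' l = y l := fun l hl => (h l hl).symm
    rcases hy : z y with _ | i
    · rcases hy' : z y' with _ | j
      · rfl
      · by_cases hj : j ∈ S
        · rw [key y' y h' j hj hy'] at hy
          exact absurd hy (by simp)
        · exact (hmem j hj).symm
    · by_cases hi : i ∈ S
      · rw [key y y' h i hi hy]
      · rw [hmem i hi]
        rcases hy' : z y' with _ | j
        · rfl
        · by_cases hj : j ∈ S
          · rw [key y' y h' j hj hy'] at hy
            have : j = i := by simpa using hy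
            exact absurd (this ▸ hj) hi
          · exact (hmem j hj).symm

end Pool.Agent.R866.GR
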