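import Mathlib

/-!
# MP_b06d56_al: growth rates of finite algebras, linear or polylogarithmic

Definitions and statements of the independent pieces (project GR).  Complete proofs: `notes.md`.
-/

namespace Pool.Agent.R866.GR

open Classical

/-- A (possibly infinite) set of finitary operations on `A`. -/
abbrev Ops (A : Type) := Set (Σ m : ℕ, (Fin m → A) → A)

/-- The family `F` of functions `Y → A` is closed under the pointwise operations. -/
def Closed {A : Type} (O : Ops A) {Y : Type} (F : Set (Y → A)) : Prop :=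
  ∀ o ∈ O, ∀ f : Fin o.1 → Y → A, (∀ j, f j ∈ F) → (fun y => o.2 fun j => f j y) ∈ F

/-- `G` generates the power `A^Y`. -/
def Gen {A : Type} (O : Ops A) {Y : Type} (G : Set (Y → A)) : Prop :=
  ∀ F : Set (Y → A), Closed O F → G ⊆ F → F = Set.univ

/-- the growth rate: least size of a finite generating set of `A^n` -/
noncomputable def growth {A : Type} (O : Ops A) (n : ℕ) : ℕ :=
  sInf {m : ℕ | ∃ G : Finset (Fin n → A), G.card = m ∧ Gen O (G : Set (Fin n → A))}

theorem Closed.comap {A : Type} {O : Ops A} {Y Z : Type} {F : Set (Y → A)} (hF : Closed O F)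
    (z : Y → Z) : Closed O {f : Z → A | f ∘ z ∈ F} :=
  fun o ho f hf => hF o ho (fun j => f j ∘ z) hf

/-- (GR) the gadget rule: if `g_1, …, g_k` generate `A^X` and `c : Y → X` has all `g_l ∘ c`
in the closed family `F`, then all functions of `c` are in `F`. -/
theorem Gen.comp {A : Type} {O : Ops A} {X : Type} {k : ℕ} {g : Fin k → X → A}
    (hg : Gen O (Set.range g)) {Y : Type} {F : Set (Y → A)} (hF : Closed O F) (c : Y → X)
    (hc : ∀ l, g l ∘ c ∈ F) (φ : X → A) : φ ∘ c ∈ F := by
  have h := hg {ψ | ψ ∘ c ∈ F} (hF.comap c) (by rintro _ ⟨l, rfl⟩; exact hc l)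
  have h2 : φ ∈ {ψ | ψ ∘ c ∈ F} := by rw [h]; trivial
  exact h2

/-- A gadget: `k` generators of `A^X`, special points `s v` and, for every `l`, a non-special
point `q v l` with the same `l`-th value as `s v`; `star` is one more non-special point. -/
structure Gadget (A : Type) (O : Ops A) (k : ℕ) (X : Type) where
  g : Fin k → X → A
  gen : Gen O (Set.range g)
  s : A → X
  s_inj : Function.Injective s
  q : A → Fin k → X
  q_eq : ∀ v l, g l (q v l) = g l (s v)
  q_ne : ∀ v l w, q v l ≠ s w
  star : X
  star_ne : ∀ w, star ≠ s w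

/-- piece GR-G (existence of gadgets) -/
def stmGadget : Prop :=
  ∀ (A : Type) [Fintype A] (O : Ops A) (k : ℕ) (X : Type) [Fintype X] (g : Fin k → X → A),
    Gen O (Set.range g) →
    Fintype.card A * Fintype.card A * k + Fintype.card A + 1 ≤ Fintype.card X →
    Nonempty (Gadget A O k X)

/-- piece GR-L (local to global).  `z y = some i` means that `y` lies in the `i`-th of a family of
disjoint sets.  If all functions that are constant on these sets and differ from the background
value on at most `|A| k` of them are in `F`, then so are all functions constant on these sets and on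
the background. -/
def stmLocal : Prop :=
  ∀ (A : Type) [Fintype A] (O : Ops A) (k : ℕ) (X : Type) (_G : Gadget A O k X)
    (Y ι : Type) [Fintype ι] (F : Set (Y → A)), Closed O F → ∀ z : Y → Option ι,
    (∀ μ : Option ι → A, {i : ι | μ (some i) ≠ μ none}.ncard ≤ Fintype.card A * k → μ ∘ z ∈ F) →
    ∀ μ : Option ι → A, μ ∘ z ∈ F

/-- all functions constant on pairwise disjoint subcubes with exactly `d` fixed coordinates, and
constant off them, are in `F` -/
def Good {A : Type} {N : ℕ} (F : Set ((Fin N → Bool) → A)) (d : ℕ) : Prop :=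
  ∀ (ι : Type) [Fintype ι] (T : ι → Finset (Fin N)) (τ : ι → Fin N → Bool)
    (z : (Fin N → Bool) → Option ι), (∀ i, (T i).card = d) →
    (∀ i y, z y = some i ↔ ∀ l ∈ T i, y l = τ i l) → ∀ μ : Option ι → A, μ ∘ z ∈ F

/-- piece GR-B (base): juntas on at most `|A| k d` coordinates give `Good F d` -/
def stmBase : Prop :=
  stmLocal → ∀ (A : Type) [Fintype A] (O : Ops A) (k : ℕ) (X : Type) (_G : Gadget A O k X)
    (N d : ℕ) (F : Set ((Fin N → Bool) → A)), Closed O F →
    (∀ (T : Finset (Fin N)) (f : (Fin N → Bool) → A), T.card ≤ Fintype.card A * k * d →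
      (∀ y y', (∀ l ∈ T, y l = y' l) → f y = f y') → f ∈ F) → Good F d

/-- flip the coordinate `d` of a point of the cube -/
def flip {κ : Type} [DecidableEq κ] (t : κ → Bool) (d : κ) : κ → Bool :=
  Function.update t d (!(t d))

/-- The domain `Option (J × (κ → Bool))` is a disjoint union of cubes together with a background
point `none`.  `Ψ` is tiled: off a set tiled by cube edges it has the background value, and on every
tile it is constant (`dir i t` is the direction of the tile of `(i,t)`). -/
def Tiled {A J κ : Type} [DecidableEq κ] (Ψ : Option (J × (κ → Bool)) → A) : Prop :=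
  ∃ dir : J → (κ → Bool) → Option κ,
    (∀ i t d, dir i t = some d → dir i (flip t d) = some d ∧
      Ψ (some (i, flip t d)) = Ψ (some (i, t))) ∧
    (∀ i t, dir i t = none → Ψ (some (i, t)) = Ψ none)

/-- piece GR-P (placement of cubes) -/
def stmPlace : Prop :=
  ∀ (A : Type) (N d : ℕ) (F : Set ((Fin N → Bool) → A)), Good F d →
    ∀ (J κ : Type) [Fintype J] [Fintype κ] [DecidableEq κ] (T : J → Finset (Fin N))
      (τ : J → Fin N → Bool) (e : J → κ → Fin N) (base : κ → Bool)
      (z : (Fin N → Bool) → Option (J × (κ → Bool))),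
      (∀ i, (T i).card = d + 1) → (∀ i, Function.Injective (e i)) → (∀ i a, e i a ∈ T i) →
      (∀ i t y, z y = some (i, t) ↔ (∀ l ∈ T i, (∀ a, e i a ≠ l) → y l = τ i l) ∧
        ∀ a, t a = xor (y (e i a)) (xor (τ i (e i a)) (base a))) →
      ∀ Ψ : Option (J × (κ → Bool)) → A, Tiled Ψ → Ψ ∘ z ∈ F

/-- tiled functions generate all functions supported at the base points of the cubes -/
def CubeProp (A : Type) (O : Ops A) (κ : Type) [DecidableEq κ] (base : κ → Bool) : Prop :=
  ∀ (J : Type) [Fintype J] (F : Set (Option (J × (κ → Bool)) → A)), Closed O F →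
    (∀ Ψ, Tiled Ψ → Ψ ∈ F) → ∀ Ψ : Option (J × (κ → Bool)) → A,
    (∀ i t, t ≠ base → Ψ (some (i, t)) = Ψ none) → Ψ ∈ F

/-- piece GR-S (induction step on the number of fixed coordinates) -/
def stmStep : Prop :=
  stmLocal → stmPlace → ∀ (A : Type) [Fintype A] (O : Ops A) (k : ℕ) (X : Type)
    (_G : Gadget A O k X) (κ : Type) [Fintype κ] [DecidableEq κ] (base : κ → Bool),
    CubeProp A O κ base → ∀ (N d : ℕ) (F : Set ((Fin N → Bool) → A)), Closed O F →
    Fintype.card κ + 2 * (Fintype.card A * k) ≤ d + 1 → Good F d → Good F (d + 1)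

/-- directions of the cube used for the paths -/
inductive Kap (U : Type) (k : ℕ) : Type
  | z : Kap U k
  | x : U → Kap U k
  | y : U → Kap U k
  | e : U → Fin k → Kap U k
  deriving DecidableEq, Fintype

/-- the even position `{z, x u}` (for `true`) and the odd position `{y u}` (for `false`) -/
def pos {U : Type} [DecidableEq U] {k : ℕ} : Bool × U → Kap U k → Bool
  | (true, _), .z => true
  | (true, u), .x u' => decide (u' = u)
  | (true, _), .y _ => false
  | (true, _), .e _ _ => false
  | (false, _), .z => false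
  | (false, _), .x _ => false
  | (false, u), .y u' => decide (u' = u)
  | (false, _), .e _ _ => false

/-- every value has, in every cube `i`, the same number of even and odd positions modulo `ν` -/
def Bal {A J U : Type} (ν : ℕ) (f : Option (J × Bool × U) → A) : Prop :=
  ∀ (i : J) (v : A), (ν : ℤ) ∣ ({u : U | f (some (i, true, u)) = v}.ncard : ℤ) -
    ({u : U | f (some (i, false, u)) = v}.ncard : ℤ)

/-- piece GR-W (paths): balanced functions are available -/
def stmPath : Prop :=
  ∀ (A : Type) (O : Ops A) (k : ℕ) (X : Type) (_G : Gadget A O k X)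
    (U J : Type) [Fintype U] [DecidableEq U] [Fintype J]
    (F : Set (Option (J × (Kap U k → Bool)) → A)), Closed O F → (∀ Ψ, Tiled Ψ → Ψ ∈ F) →
    ∀ f : Option (J × Bool × U) → A, Bal 0 f → ∀ Ψ : Option (J × (Kap U k → Bool)) → A,
    Ψ none = f none → (∀ i p, Ψ (some (i, pos p)) = f (some (i, p))) →
    (∀ i t, (∀ p, pos p ≠ t) → Ψ (some (i, t)) = f none) → Ψ ∈ F

/-- if all exactly balanced functions are available then so are all functions balanced modulo `ν`
with at most `K` non-background positions in every cube, as soon as `U` is large enough -/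
def QProp (A : Type) (O : Ops A) (ν : ℕ) : Prop :=
  ∀ K : ℕ, ∃ N₀ : ℕ, ∀ (U J : Type) [Fintype U] [Fintype J]
    (F : Set (Option (J × Bool × U) → A)), N₀ ≤ Fintype.card U → Closed O F →
    (∀ f, Bal 0 f → f ∈ F) → ∀ f, Bal ν f →
    (∀ i, {p : Bool × U | f (some (i, p)) ≠ f none}.ncard ≤ K) → f ∈ F

/-- piece GR-D (descent with tokens) -/
def stmDesc : Prop :=
  ∀ (A : Type) [Fintype A] (O : Ops A) (k : ℕ) (X : Type) [Fintype X] (g : Fin k → X → A),
    Gen O (Set.range g) → ∀ (ν ν' : ℕ) (η : A → X → ℤ) (s : A → X) (star : X), 1 ≤ ν' →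
    (∀ v, star ≠ s v) →
    (∀ v l b, (ν : ℤ) ∣ ∑ x ∈ Finset.univ.filter (fun x => g l x = b), η v x) →
    (∀ v w, η v (s w) = if v = w then (ν' : ℤ) else 0) → QProp A O ν → QProp A O ν'

/-- piece GR-V (linear algebra): kernel vectors on disjoint blocks -/
def stmVec : Prop :=
  ∀ (A : Type) [Fintype A] (k : ℕ) (X : Type) [Fintype X] (g : Fin k → X → A),
    Fintype.card A * (Fintype.card A * k + 1) + 1 ≤ Fintype.card X →
    (∃ (ν : ℕ) (η : A → X → ℤ) (s : A → X) (star : X), 1 ≤ ν ∧ (∀ v, star ≠ s v) ∧
      (∀ v l b, ∑ x ∈ Finset.univ.filter (fun x => g l x = b), η v x = 0) ∧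
      (∀ v w, η v (s w) = if v = w then (ν : ℤ) else 0)) ∧
    (∀ p : ℕ, p.Prime → ∃ (η : A → X → ℤ) (s : A → X) (star : X), (∀ v, star ≠ s v) ∧
      (∀ v l b, (p : ℤ) ∣ ∑ x ∈ Finset.univ.filter (fun x => g l x = b), η v x) ∧
      (∀ v w, η v (s w) = if v = w then (1 : ℤ) else 0))

end Pool.Agent.R866.GR
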