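import Pool.Agent.R866.GR.Defs

/-!
# Project GR, piece GR-D: descent with tokens
-/

namespace Pool.Agent.R866.GR

open Classical

namespace DescAux

theorem ncard_sum {U X : Type} [Fintype U] (r : U → X) (I : Set U) (S : Finset X) :
    {u | u ∈ I ∧ r u ∈ S}.ncard = ∑ x ∈ S, {u | u ∈ I ∧ r u = x}.ncard := by
  induction S using Finset.induction_on with
  | empty => simp
  | insert a S ha ih =>
    rw [Finset.sum_insert ha, ← ih, ← Set.ncard_union_eq ?_ (Set.toFinite _) (Set.toFinite _)]
    · congr 1
      ext u
      simp only [Set.mem_ofPred_eq, Set.mem_union, Finset.mem_insert]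
      tauto
    · rw [Set.disjoint_left]
      rintro u ⟨_, h1⟩ ⟨_, h2⟩
      exact ha (h1 ▸ h2)

/-- a function with prescribed fibre sizes on `I` -/
theorem exists_fibre {U X : Type} [Fintype U] [Fintype X] (I : Set U) (n : X → ℕ) (star : X)
    (h : ∑ x, n x ≤ I.ncard) :
    ∃ r : U → X, ∀ x, x ≠ star → {u | u ∈ I ∧ r u = x}.ncard = n x := by
  have hc : Fintype.card (Σ x, Fin (n x)) ≤ Fintype.card I := by
    rw [Fintype.card_sigma, ← Nat.card_eq_fintype_card (α := I), Nat.card_coe_set_eq]
    simp only [Fintype.card_fin]
    exact h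
  obtain ⟨ψ⟩ := Function.Embedding.nonempty_of_card_le hc
  refine ⟨fun u => if hu : ∃ y, (ψ y : U) = u then hu.choose.1 else star, ?_⟩
  intro x hx
  have hval : ∀ y : Σ x, Fin (n x),
      (if hu : ∃ y', (ψ y' : U) = (ψ y : U) then hu.choose.1 else star) = y.1 := by
    intro y
    have hu : ∃ y', (ψ y' : U) = (ψ y : U) := ⟨y, rfl⟩
    rw [dif_pos hu]
    have := hu.choose_spec
    rw [ψ.injective (Subtype.ext this)]
  have hset : {u | u ∈ I ∧ (if hu : ∃ y, (ψ y : U) = u then hu.choose.1 else star) = x} =
      Set.range (fun j : Fin (n x) => (ψ ⟨x, j⟩ : U)) := by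
    ext u
    simp only [Set.mem_ofPred_eq, Set.mem_range]
    constructor
    · rintro ⟨_, hu⟩
      by_cases he : ∃ y, (ψ y : U) = u
      · obtain ⟨y, rfl⟩ := he
        rw [hval y] at hu
        subst hu
        exact ⟨y.2, rfl⟩
      · rw [dif_neg he] at hu
        exact absurd hu.symm hx
    · rintro ⟨j, rfl⟩
      exact ⟨(ψ ⟨x, j⟩).2, hval _⟩
  rw [hset, Set.ncard_range_of_injective]
  · simp
  · intro j j' hj
    have := ψ.injective (Subtype.ext hj)
    simpa using this

theorem ncard_bool {U : Type} [Fintype U] (P : Bool × U → Prop) :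
    {p | P p}.ncard ≤ {u | P (true, u)}.ncard + {u | P (false, u)}.ncard := by
  have hsub : {p | P p} ⊆ (fun u => (true, u)) '' {u | P (true, u)} ∪
      (fun u => (false, u)) '' {u | P (false, u)} := by
    rintro ⟨σ, u⟩ hp
    cases σ
    · right
      exact ⟨u, hp, rfl⟩
    · left
      exact ⟨u, hp, rfl⟩
  refine (Set.ncard_le_ncard hsub (Set.toFinite _)).trans ((Set.ncard_union_le _ _).trans ?_)
  exact add_le_add (Set.ncard_image_le (Set.toFinite _)) (Set.ncard_image_le (Set.toFinite _))

theorem ncard_sign {U : Type} [Fintype U] (P : Bool × U → Prop) (σ : Bool) :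
    {u | P (σ, u)}.ncard ≤ {p | P p}.ncard := by
  have hinj : Function.Injective (fun u : U => (σ, u)) := fun a b h => (Prod.ext_iff.1 h).2
  rw [← Set.ncard_image_of_injective _ hinj]
  refine Set.ncard_le_ncard ?_ (Set.toFinite _)
  rintro _ ⟨u, hu, rfl⟩
  exact hu

end DescAux

open DescAux

theorem desc : stmDesc := by
  intro A _ O k X _ g hgen ν ν' η s star hν' hstar hη hηs hQ K
  set H : ℕ := ∑ v, ∑ x, (η v x).natAbs with hH
  obtain ⟨N₀, hN₀⟩ := hQ (K + K * H)
  refine ⟨max N₀ (K + K * H), ?_⟩
  intro U J _ _ F hU hF hF0 f hf hact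
  have hQ' := hN₀ U J F ((le_max_left _ _).trans hU) hF hF0
  have hUK : K + K * H ≤ Fintype.card U := (le_max_right _ _).trans hU
  set b0 := f none with hb0
  -- the numbers `h i v`
  choose h hh using hf
  have hhK : ∀ i v, v ≠ b0 → (h i v).natAbs ≤ K := by
    intro i v hv
    have h1 : ∀ σ : Bool, {u : U | f (some (i, σ, u)) = v}.ncard ≤ K := by
      intro σ
      refine le_trans (Set.ncard_le_ncard (t := {u : U | f (some (i, σ, u)) ≠ b0}) ?_
        (Set.toFinite _)) (le_trans (ncard_sign (fun p : Bool × U => f (some (i, p)) ≠ b0) σ)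
        (hact i))
      intro u hu
      simp only [Set.mem_ofPred_eq] at hu ⊢
      rw [hu]
      exact hv
    have h2 := h1 true
    have h3 := h1 false
    have h4 := hh i v
    have h5 : ((h i v).natAbs : ℤ) ≤ ((ν' : ℤ) * h i v).natAbs := by
      rw [Int.natAbs_mul, Int.natAbs_natCast]
      push_cast
      have : (1 : ℤ) ≤ ν' := by exact_mod_cast hν'
      nlinarith [abs_nonneg (h i v)]
    rw [← h4] at h5
    omega
  -- the multiplicities
  set m : J → X → ℤ := fun i x => ∑ v ∈ Finset.univ.filter (fun v => v ≠ b0), h i v * η v x with hm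
  have hms : ∀ i v, v ≠ b0 → m i (s v) = (ν' : ℤ) * h i v := by
    intro i v hv
    simp only [hm]
    rw [Finset.sum_eq_single v]
    · rw [hηs, if_pos rfl, mul_comm]
    · intro w _ hw
      rw [hηs, if_neg hw, mul_zero]
    · intro hv'
      exact (hv' (Finset.mem_filter.2 ⟨Finset.mem_univ _, hv⟩)).elim
  have hmabs : ∀ i, ∑ x, (m i x).natAbs ≤ K * H := by
    intro i
    calc ∑ x, (m i x).natAbs
        ≤ ∑ x, ∑ v ∈ Finset.univ.filter (fun v => v ≠ b0), K * (η v x).natAbs := by
          apply Finset.sum_le_sum
          intro x _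
          refine (Int.natAbs_sum_le _ _).trans ?_
          apply Finset.sum_le_sum
          intro v hv
          rw [Int.natAbs_mul]
          exact Nat.mul_le_mul_right _ (hhK i v (Finset.mem_filter.1 hv).2)
      _ ≤ ∑ x, ∑ v, K * (η v x).natAbs := by
          apply Finset.sum_le_sum
          intro x _
          exact Finset.sum_le_sum_of_subset (Finset.filter_subset _ _)
      _ = K * H := by
          rw [Finset.sum_comm, hH, Finset.mul_sum]
          apply Finset.sum_congr rfl
          intro v _
          rw [Finset.mul_sum]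
  -- prescribed fibres on the inactive positions
  set n : J → Bool → X → ℕ := fun i σ x => if x = star ∨ (∃ v, v ≠ b0 ∧ s v = x) then 0 else
    (if σ then (m i x).toNat else (- m i x).toNat) with hn
  have hnle : ∀ i x, n i true x + n i false x ≤ (m i x).natAbs := by
    intro i x
    simp only [hn]
    split_ifs <;> first | omega | simp_all
  have hfib : ∀ i σ, ∃ r : U → X, ∀ x, x ≠ star →
      {u | u ∈ {u | f (some (i, σ, u)) = b0} ∧ r u = x}.ncard = n i σ x := by
    intro i σ
    apply exists_fibre
    have h1 : ∑ x, n i σ x ≤ K * H := by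
      refine le_trans (Finset.sum_le_sum fun x _ => ?_) (hmabs i)
      have := hnle i x
      cases σ <;> omega
    have h2 : {u : U | f (some (i, σ, u)) = b0}.ncard + {u : U | f (some (i, σ, u)) ≠ b0}.ncard =
        Fintype.card U := by
      rw [← Nat.card_eq_fintype_card, ← Set.ncard_univ,
        ← Set.ncard_union_eq ?_ (Set.toFinite _) (Set.toFinite _)]
      · congr 1
        ext u
        simp only [Set.mem_union, Set.mem_ofPred_eq, Set.mem_univ, iff_true]
        tauto
      · rw [Set.disjoint_left]
        intro u hu hu'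
        exact hu' hu
    have h3 : {u : U | f (some (i, σ, u)) ≠ b0}.ncard ≤ K :=
      (ncard_sign (fun p : Bool × U => f (some (i, p)) ≠ b0) σ).trans (hact i)
    omega
  choose r hr using hfib
  have hsinj : ∀ v w, s v = s w → v = w := by
    intro v w hvw
    by_contra hne
    have h1 := hηs v v
    rw [if_pos rfl, hvw, hηs, if_neg hne] at h1
    have : (ν' : ℤ) ≠ 0 := by exact_mod_cast (by omega : ν' ≠ 0)
    exact this h1.symm
  -- no inactive position has a value `s v`, `v ≠ b0`
  have hrs : ∀ i σ u v, f (some (i, σ, u)) = b0 → v ≠ b0 → r i σ u ≠ s v := by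
    intro i σ u v hu hv hrv
    have h1 := hr i σ (s v) (Ne.symm (hstar v))
    have h2 : n i σ (s v) = 0 := by
      simp only [hn]
      rw [if_pos (Or.inr ⟨v, hv, rfl⟩)]
    rw [h2, Set.ncard_eq_zero (Set.toFinite _)] at h1
    have : u ∈ ({u | u ∈ {u | f (some (i, σ, u)) = b0} ∧ r i σ u = s v} : Set U) := ⟨hu, hrv⟩
    rw [h1] at this
    exact this
  set c : Option (J × Bool × U) → X := fun p => match p with
    | none => star
    | some (i, σ, u) => if f (some (i, σ, u)) = b0 then r i σ u else s (f (some (i, σ, u))) with hc
  have hcs : ∀ i σ u, c (some (i, σ, u)) =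
      if f (some (i, σ, u)) = b0 then r i σ u else s (f (some (i, σ, u))) := fun _ _ _ => rfl
  have hcn : c none = star := rfl
  -- counting
  have hcnt : ∀ i x, x ≠ star → (({u : U | c (some (i, true, u)) = x}.ncard : ℤ) -
      ({u : U | c (some (i, false, u)) = x}.ncard : ℤ)) = m i x := by
    intro i x hx
    by_cases hxs : ∃ v, v ≠ b0 ∧ s v = x
    · obtain ⟨v, hv, rfl⟩ := hxs
      have hset : ∀ σ : Bool, {u : U | c (some (i, σ, u)) = s v} =
          {u : U | f (some (i, σ, u)) = v} := by
        intro σ
        ext u
        simp only [Set.mem_ofPred_eq]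
        rw [hcs]
        constructor
        · intro hu
          split_ifs at hu with h1
          · exact absurd hu (hrs i σ u v h1 hv)
          · exact hsinj _ _ hu
        · intro hu
          rw [if_neg (by rw [hu]; exact hv), hu]
      rw [hset, hset, hms i v hv]
      exact hh i v
    · have hset : ∀ σ : Bool, {u : U | c (some (i, σ, u)) = x} =
          {u | u ∈ {u | f (some (i, σ, u)) = b0} ∧ r i σ u = x} := by
        intro σ
        ext u
        simp only [Set.mem_ofPred_eq]
        rw [hcs]
        constructor
        · intro hu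
          split_ifs at hu with h1
          · exact ⟨h1, hu⟩
          · exact absurd ⟨_, h1, hu⟩ hxs
        · rintro ⟨h1, h2⟩
          rw [if_pos h1, h2]
      rw [hset, hset, hr i true x hx, hr i false x hx]
      have hne : ¬ (x = star ∨ ∃ v, v ≠ b0 ∧ s v = x) := fun h => h.elim hx hxs
      have e1 : n i true x = (m i x).toNat := by
        simp only [hn]
        rw [if_neg hne]
        simp
      have e2 : n i false x = (- m i x).toNat := by
        simp only [hn]
        rw [if_neg hne]
        simp
      rw [e1, e2]
      omega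
  -- sums of `m` over fibres of `g l`
  have hdiv : ∀ i l (S : Finset A), (ν : ℤ) ∣
      ∑ x ∈ Finset.univ.filter (fun x => g l x ∈ S), m i x := by
    intro i l S
    simp only [hm]
    rw [Finset.sum_comm]
    apply Finset.dvd_sum
    intro v _
    rw [← Finset.mul_sum]
    apply Dvd.dvd.mul_left
    rw [← Finset.sum_fiberwise_of_maps_to (s := Finset.univ.filter (fun x => g l x ∈ S)) (t := S)
      (g := fun x => g l x) (fun x hx => (Finset.mem_filter.1 hx).2)]
    apply Finset.dvd_sum
    intro b hb
    have : (Finset.univ.filter (fun x => g l x ∈ S)).filter (fun x => g l x = b) =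
        Finset.univ.filter (fun x => g l x = b) := by
      ext x
      simp only [Finset.mem_filter, Finset.mem_univ, true_and]
      constructor
      · exact fun h => h.2
      · exact fun h => ⟨h ▸ hb, h⟩
    rw [this]
    exact hη v l b
  -- the functions `g l ∘ c`
  have hgc : ∀ l, g l ∘ c ∈ F := by
    intro l
    apply hQ'
    · intro i b
      have hsum : ∀ (σ : Bool) (S : Finset A), {u : U | (g l ∘ c) (some (i, σ, u)) ∈ S}.ncard =
          ∑ x ∈ Finset.univ.filter (fun x => g l x ∈ S), {u : U | c (some (i, σ, u)) = x}.ncard := by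
        intro σ S
        have h1 := ncard_sum (fun u : U => c (some (i, σ, u))) Set.univ
          (Finset.univ.filter (fun x => g l x ∈ S))
        simpa using h1
      have hb1 : ∀ σ : Bool, {u : U | (g l ∘ c) (some (i, σ, u)) = b} =
          {u : U | (g l ∘ c) (some (i, σ, u)) ∈ ({b} : Finset A)} := by
        intro σ
        simp
      by_cases hb : b = g l star
      · -- use the complement
        have htot : ∀ σ : Bool, ({u : U | (g l ∘ c) (some (i, σ, u)) = b}.ncard : ℤ) =
            Fintype.card U -
              ({u : U | (g l ∘ c) (some (i, σ, u)) ∈ (Finset.univ.erase b : Finset A)}.ncard : ℤ) := by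
          intro σ
          have h2 : {u : U | (g l ∘ c) (some (i, σ, u)) = b}.ncard +
              {u : U | (g l ∘ c) (some (i, σ, u)) ∈ (Finset.univ.erase b : Finset A)}.ncard =
              Fintype.card U := by
            rw [← Nat.card_eq_fintype_card, ← Set.ncard_univ,
              ← Set.ncard_union_eq ?_ (Set.toFinite _) (Set.toFinite _)]
            · congr 1
              ext u
              simp only [Set.mem_union, Set.mem_ofPred_eq, Set.mem_univ, iff_true,
                Finset.mem_erase, Finset.mem_univ, and_true]
              tauto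
            · rw [Set.disjoint_left]
              intro u hu hu'
              exact (Finset.mem_erase.1 hu').1 hu
          omega
        rw [htot true, htot false, hsum true, hsum false]
        push_cast
        have e1 : ((Fintype.card U : ℤ) -
            ∑ x ∈ Finset.univ.filter (fun x => g l x ∈ (Finset.univ.erase b : Finset A)),
              ({u : U | c (some (i, true, u)) = x}.ncard : ℤ) - ((Fintype.card U : ℤ) -
            ∑ x ∈ Finset.univ.filter (fun x => g l x ∈ (Finset.univ.erase b : Finset A)),
              ({u : U | c (some (i, false, u)) = x}.ncard : ℤ))) =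
            - ∑ x ∈ Finset.univ.filter (fun x => g l x ∈ (Finset.univ.erase b : Finset A)),
              (({u : U | c (some (i, true, u)) = x}.ncard : ℤ) -
                ({u : U | c (some (i, false, u)) = x}.ncard : ℤ)) := by
          rw [Finset.sum_sub_distrib]
          ring
        rw [e1, dvd_neg]
        have e2 : ∑ x ∈ Finset.univ.filter (fun x => g l x ∈ (Finset.univ.erase b : Finset A)),
              (({u : U | c (some (i, true, u)) = x}.ncard : ℤ) -
                ({u : U | c (some (i, false, u)) = x}.ncard : ℤ)) =
            ∑ x ∈ Finset.univ.filter (fun x => g l x ∈ (Finset.univ.erase b : Finset A)), m i x := by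
          apply Finset.sum_congr rfl
          intro x hx
          apply hcnt
          rintro rfl
          exact (Finset.mem_erase.1 (Finset.mem_filter.1 hx).2).1 hb.symm
        rw [e2]
        exact hdiv i l _
      · rw [hb1 true, hb1 false, hsum true, hsum false]
        push_cast
        rw [← Finset.sum_sub_distrib]
        have e2 : ∑ x ∈ Finset.univ.filter (fun x => g l x ∈ ({b} : Finset A)),
              (({u : U | c (some (i, true, u)) = x}.ncard : ℤ) -
                ({u : U | c (some (i, false, u)) = x}.ncard : ℤ)) =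
            ∑ x ∈ Finset.univ.filter (fun x => g l x ∈ ({b} : Finset A)), m i x := by
          apply Finset.sum_congr rfl
          intro x hx
          apply hcnt
          rintro rfl
          exact hb (Finset.mem_singleton.1 (Finset.mem_filter.1 hx).2).symm
        rw [e2]
        exact hdiv i l _
    · intro i
      have hsub : {p : Bool × U | (g l ∘ c) (some (i, p)) ≠ (g l ∘ c) none} ⊆
          {p : Bool × U | f (some (i, p)) ≠ b0} ∪
            {p : Bool × U | f (some (i, p)) = b0 ∧ r i p.1 p.2 ≠ star} := by
        rintro ⟨σ, u⟩ hp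
        by_cases h1 : f (some (i, σ, u)) = b0
        · right
          refine ⟨h1, fun h2 => hp ?_⟩
          show g l (c (some (i, σ, u))) = g l (c none)
          rw [hcs, if_pos h1, hcn]
          exact congrArg (g l) h2
        · left
          exact h1
      refine (Set.ncard_le_ncard hsub (Set.toFinite _)).trans ((Set.ncard_union_le _ _).trans ?_)
      apply add_le_add (hact i)
      refine (ncard_bool (fun p : Bool × U => f (some (i, p)) = b0 ∧ r i p.1 p.2 ≠ star)).trans ?_
      have h1 : ∀ σ : Bool, {u : U | f (some (i, σ, u)) = b0 ∧ r i σ u ≠ star}.ncard =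
          ∑ x ∈ Finset.univ.erase star, n i σ x := by
        intro σ
        have h2 := ncard_sum (r i σ) {u | f (some (i, σ, u)) = b0} (Finset.univ.erase star)
        have h3 : {u : U | f (some (i, σ, u)) = b0 ∧ r i σ u ≠ star} =
            {u | u ∈ {u | f (some (i, σ, u)) = b0} ∧ r i σ u ∈ Finset.univ.erase star} := by
          ext u
          simp
        rw [h3, h2]
        apply Finset.sum_congr rfl
        intro x hx
        exact hr i σ x (Finset.mem_erase.1 hx).1
      show {u : U | f (some (i, true, u)) = b0 ∧ r i true u ≠ star}.ncard +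
        {u : U | f (some (i, false, u)) = b0 ∧ r i false u ≠ star}.ncard ≤ K * H
      rw [h1 true, h1 false, ← Finset.sum_add_distrib]
      refine le_trans (Finset.sum_le_sum fun x _ => hnle i x) ?_
      exact le_trans (Finset.sum_le_sum_of_subset (Finset.erase_subset _ _)) (hmabs i)
  -- the conclusion
  set φ : X → A := fun x => if hx : ∃ v, v ≠ b0 ∧ s v = x then hx.choose else b0 with hφ
  have hφs : ∀ v, v ≠ b0 → φ (s v) = v := by
    intro v hv
    have hx : ∃ w, w ≠ b0 ∧ s w = s v := ⟨v, hv, rfl⟩
    simp only [hφ]
    rw [dif_pos hx]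
    exact hsinj _ _ hx.choose_spec.2
  have hφn : ∀ x, (∀ v, v ≠ b0 → x ≠ s v) → φ x = b0 := by
    intro x hx
    simp only [hφ]
    rw [dif_neg]
    rintro ⟨v, hv, h1⟩
    exact hx v hv h1.symm
  have hfc : φ ∘ c = f := by
    funext p
    rcases p with _ | ⟨i, σ, u⟩
    · show φ (c none) = f none
      rw [hcn]
      exact hφn star (fun v _ => hstar v)
    · show φ (c (some (i, σ, u))) = f (some (i, σ, u))
      rw [hcs]
      split_ifs with h1
      · rw [h1]
        exact hφn _ (fun v hv => hrs i σ u v h1 hv)
      · exact hφs _ h1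
  rw [← hfc]
  exact hgen.comp hF c hgc φ

end Pool.Agent.R866.GR
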