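import Pool.Agent.R866.GR.Assemble

/-!
# Project GR, final statement from the pieces
-/

namespace Pool.Agent.R866.GR

open Classical

theorem clog_le (n : ℕ) (hn : 2 ≤ n) : (Nat.clog 2 n : ℝ) ≤ 2 / Real.log 2 * Real.log n := by
  have hl2 : 0 < Real.log 2 := Real.log_pos (by norm_num)
  have h1 : Nat.clog 2 n ≤ Nat.log 2 n + 1 := by
    rw [Nat.clog_le_iff_le_pow (by norm_num)]
    exact (Nat.lt_pow_succ_log_self (by norm_num) n).le
  have h2 : (1 : ℕ) ≤ Nat.log 2 n := Nat.log_pos (by norm_num) hn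
  have h3 : (Nat.log 2 n : ℝ) * Real.log 2 ≤ Real.log n := by
    rw [← Real.log_pow]
    apply Real.log_le_log (by positivity)
    exact_mod_cast Nat.pow_log_le_self 2 (by omega)
  have h4 : (Nat.clog 2 n : ℝ) ≤ 2 * Nat.log 2 n := by
    have : Nat.clog 2 n ≤ 2 * Nat.log 2 n := by omega
    exact_mod_cast this
  calc (Nat.clog 2 n : ℝ) ≤ 2 * Nat.log 2 n := h4
    _ = 2 / Real.log 2 * (Nat.log 2 n * Real.log 2) := by field_simp
    _ ≤ 2 / Real.log 2 * Real.log n := by gcongr

theorem final (hGd : stmGadget) (hL : stmLocal) (hB : stmBase) (hPl : stmPlace) (hS : stmStep)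
    (hP : stmPath) (hD : stmDesc) (hV : stmVec) (A : Type) [Fintype A] [Nonempty A] (O : Ops A) :
    (∀ n : ℕ, n ≤ Fintype.card A ^ 2 * growth O n + Fintype.card A) ∨
    ∃ (C : ℝ) (m : ℕ), ∀ n : ℕ, 2 ≤ n → (growth O n : ℝ) ≤ C * Real.log n ^ m := by
  by_cases hall : ∀ n : ℕ, n ≤ Fintype.card A ^ 2 * growth O n + Fintype.card A
  · exact Or.inl hall
  right
  push Not at hall
  obtain ⟨n, hn⟩ := hall
  obtain ⟨G, hGc, hG⟩ := exists_growth O n
  set k := growth O n with hk
  let e : Fin k ≃ G := (finCongr hGc.symm).trans G.equivFin.symm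
  let g : Fin k → Fin n → A := fun l => (e l : Fin n → A)
  have hr : Set.range g = (G : Set (Fin n → A)) := by
    ext f
    constructor
    · rintro ⟨l, rfl⟩
      exact (e l).2
    · intro hf
      exact ⟨e.symm ⟨f, hf⟩, by simp [g]⟩
  have hgen : Gen O (Set.range g) := by rw [hr]; exact hG
  have hc1 : Fintype.card A * Fintype.card A * k + Fintype.card A + 1 ≤ Fintype.card (Fin n) := by
    rw [Fintype.card_fin]
    nlinarith
  have hc2 : Fintype.card A * (Fintype.card A * k + 1) + 1 ≤ Fintype.card (Fin n) := by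
    rw [Fintype.card_fin]
    nlinarith
  obtain ⟨Gd⟩ := hGd A O k (Fin n) g hgen hc1
  have hQ := qone hD hV O k (Fin n) g hgen hc2
  obtain ⟨m, hm⟩ := all_of_gadget hL hB hPl hS hP Gd hQ
  refine ⟨(2 / Real.log 2) ^ m * Fintype.card ((Fin m → Bool) → A), m, fun r hr2 => ?_⟩
  have hN : 1 ≤ Nat.clog 2 r := Nat.clog_pos (by norm_num) (by omega)
  have h1 := growth_polylog hm r (Nat.clog 2 r) hN (Nat.le_pow_clog (by norm_num) r)
  have h2 : (growth O r : ℝ) ≤ (Nat.clog 2 r : ℝ) ^ m * Fintype.card ((Fin m → Bool) → A) := by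
    exact_mod_cast h1
  have h3 := clog_le r hr2
  calc (growth O r : ℝ) ≤ (Nat.clog 2 r : ℝ) ^ m * Fintype.card ((Fin m → Bool) → A) := h2
    _ ≤ (2 / Real.log 2 * Real.log r) ^ m * Fintype.card ((Fin m → Bool) → A) := by
        gcongr
    _ = (2 / Real.log 2) ^ m * Fintype.card ((Fin m → Bool) → A) * Real.log r ^ m := by
        rw [mul_pow]; ring

end Pool.Agent.R866.GR
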