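import Pool.Agent.R866.GR.Defs

/-!
# MP_b06d56_al, piece GR-G: existence of gadgets
-/

set_option autoImplicit false

namespace Pool.Agent.R866.GR

open Classical

theorem gadget : stmGadget := by
  intro A _ O k X _ g hgen hcard
  -- popular points
  set pop : Finset X := Finset.univ.filter
    (fun x => ∀ l, Fintype.card A < (Finset.univ.filter (fun y => g l y = g l x)).card) with hpop
  have hunpop : (Finset.univ.filter (fun x => x ∉ pop)).card ≤
      Fintype.card A * Fintype.card A * k := by
    have hsub : Finset.univ.filter (fun x => x ∉ pop) ⊆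
        (((Finset.univ : Finset (Fin k × A)).filter
          (fun p => (Finset.univ.filter (fun y => g p.1 y = p.2)).card ≤ Fintype.card A)).biUnion
          (fun p => Finset.univ.filter (fun y => g p.1 y = p.2))) := by
      intro x hx
      rw [Finset.mem_filter] at hx
      have h1 : ¬ ∀ l, Fintype.card A < (Finset.univ.filter (fun y => g l y = g l x)).card := by
        intro h
        exact hx.2 (by rw [hpop, Finset.mem_filter]; exact ⟨Finset.mem_univ _, h⟩)
      push Not at h1
      obtain ⟨l, hl⟩ := h1
      rw [Finset.mem_biUnion]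
      refine ⟨(l, g l x), ?_, ?_⟩
      · rw [Finset.mem_filter]; exact ⟨Finset.mem_univ _, hl⟩
      · rw [Finset.mem_filter]; exact ⟨Finset.mem_univ _, rfl⟩
    refine (Finset.card_le_card hsub).trans ?_
    refine (Finset.card_biUnion_le_card_mul _ _ (Fintype.card A) ?_).trans ?_
    · intro p hp
      rw [Finset.mem_filter] at hp
      exact hp.2
    · have h1 := Finset.card_filter_le (Finset.univ : Finset (Fin k × A))
        (fun p => (Finset.univ.filter (fun y => g p.1 y = p.2)).card ≤ Fintype.card A)
      rw [Finset.card_univ, Fintype.card_prod, Fintype.card_fin] at h1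
      calc _ ≤ (k * Fintype.card A) * Fintype.card A := Nat.mul_le_mul_right _ h1
        _ = _ := by ring
  have hpc : Fintype.card A + 1 ≤ pop.card := by
    have h1 : pop.card + (Finset.univ.filter (fun x => x ∉ pop)).card = Fintype.card X := by
      have := Finset.card_filter_add_card_filter_not (s := (Finset.univ : Finset X)) (fun x => x ∈ pop)
      simpa using this
    omega
  have hpm : ∀ x ∈ pop, ∀ l, Fintype.card A <
      (Finset.univ.filter (fun y => g l y = g l x)).card := by
    intro x hx
    rw [hpop, Finset.mem_filter] at hx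
    exact hx.2
  obtain ⟨s⟩ := Function.Embedding.nonempty_of_card_le (α := A) (β := pop) (by
    rw [Fintype.card_coe]; omega)
  have himg : ((Finset.univ : Finset A).image (fun v => (s v : X))).card ≤ Fintype.card A := by
    refine Finset.card_image_le.trans ?_
    rw [Finset.card_univ]
  have hq : ∀ (v : A) (l : Fin k), ∃ x : X, g l x = g l (s v) ∧ ∀ w, x ≠ s w := by
    intro v l
    obtain ⟨x, hx1, hx2⟩ := Finset.exists_mem_notMem_of_card_lt_card
      (lt_of_le_of_lt himg (hpm _ (s v).2 l))
    rw [Finset.mem_filter] at hx1
    refine ⟨x, hx1.2, fun w hw => hx2 ?_⟩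
    rw [Finset.mem_image]
    exact ⟨w, Finset.mem_univ _, hw.symm⟩
  have hstar : ∃ x : X, ∀ w, x ≠ s w := by
    have h1 : ((Finset.univ : Finset A).image (fun v => (s v : X))).card < (Finset.univ : Finset X).card := by
      rw [Finset.card_univ]; omega
    obtain ⟨x, hx1, hx2⟩ := Finset.exists_mem_notMem_of_card_lt_card h1
    refine ⟨x, fun w hw => hx2 ?_⟩
    rw [Finset.mem_image]
    exact ⟨w, Finset.mem_univ _, hw.symm⟩
  choose q hq1 hq2 using hq
  obtain ⟨star, hst⟩ := hstar
  exact ⟨{ g := g, gen := hgen, s := fun v => s v
           s_inj := fun v w h => s.injective (Subtype.ext h)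
           q := q, q_eq := hq1, q_ne := hq2, star := star, star_ne := hst }⟩

end Pool.Agent.R866.GR
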