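import Pool.Agent.R866.GR.Defs

/-!
# MP_b06d56_al, piece GR-L: local to global
-/

set_option autoImplicit false

namespace Pool.Agent.R866.GR

open Classical

theorem local_ : stmLocal := by
  intro A _ O k X G Y ι _ F hF z hloc
  have main : ∀ (t : ℕ) (μ : Option ι → A), {i : ι | μ (some i) ≠ μ none}.ncard = t → μ ∘ z ∈ F := by
    intro t
    induction t using Nat.strong_induction_on with
    | _ t ih =>
      intro μ hμ
      by_cases ht : t ≤ Fintype.card A * k
      · exact hloc μ (by rw [hμ]; exact ht)
      push Not at ht
      set S : Finset ι := Finset.univ.filter (fun i => μ (some i) ≠ μ none) with hS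
      have hSc : S.card = t := by
        rw [← hμ, Set.ncard_eq_toFinset_card']
        congr 1
        ext i
        simp [hS]
      obtain ⟨b, _, hb⟩ := Finset.exists_lt_card_fiber_of_mul_lt_card_of_maps_to
        (s := S) (t := (Finset.univ : Finset A)) (f := fun i => μ (some i)) (n := k)
        (fun i _ => Finset.mem_univ _) (by rw [Finset.card_univ, hSc]; exact ht)
      obtain ⟨j⟩ := Function.Embedding.nonempty_of_card_le (α := Fin k)
        (β := S.filter (fun i => μ (some i) = b)) (by rw [Fintype.card_coe, Fintype.card_fin]; exact hb.le)
      have hbne : b ≠ μ none := by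
        obtain ⟨i, hi⟩ := Finset.card_pos.1 (lt_of_le_of_lt (Nat.zero_le _) hb)
        rw [Finset.mem_filter] at hi
        rw [hS, Finset.mem_filter] at hi
        rw [← hi.2]; exact hi.1.2
      have hj : ∀ l, μ (some (j l : ι)) = b := by
        intro l
        have := (j l).2
        rw [Finset.mem_filter] at this
        exact this.2
      set c : Option ι → X := fun o => match o with
        | none => G.s (μ none)
        | some i => if μ (some i) = μ none then G.s (μ none) else
            if h : ∃ l, (j l : ι) = i then G.q (μ none) (Classical.choose h) else
              if μ (some i) = b then G.star else G.s (μ (some i)) with hc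
      set φ : X → A := fun x => if h : ∃ v, G.s v = x then Classical.choose h else b with hφ
      have hφs : ∀ v, φ (G.s v) = v := by
        intro v
        have h : ∃ w, G.s w = G.s v := ⟨v, rfl⟩
        simp only [hφ]
        rw [dif_pos h]
        exact G.s_inj (Classical.choose_spec h)
      have hφn : ∀ x, (∀ w, x ≠ G.s w) → φ x = b := by
        intro x hx
        simp only [hφ]
        rw [dif_neg]
        rintro ⟨w, hw⟩
        exact hx w hw.symm
      have hcomp : φ ∘ c = μ := by
        funext o
        rcases o with _ | i
        · exact hφs _
        · simp only [Function.comp, hc]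
          split_ifs with h1 h2 h3
          · rw [hφs, h1]
          · rw [hφn _ (G.q_ne _ _)]
            obtain ⟨l, hl⟩ := h2
            rw [← hl, hj]
          · rw [hφn _ G.star_ne, h3]
          · rw [hφs]
      have hgl : ∀ l, G.g l ∘ (c ∘ z) ∈ F := by
        intro l
        rw [← Function.comp_assoc]
        refine ih _ ?_ (G.g l ∘ c) rfl
        rw [← hμ]
        apply Set.ncard_lt_ncard _ (Set.toFinite _)
        rw [Set.ssubset_iff_of_subset]
        · refine ⟨(j l : ι), ?_, ?_⟩
          · rw [Set.mem_ofPred_eq, hj]; exact hbne
          · rw [Set.mem_ofPred_eq, not_not]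
            have h : ∃ l', (j l' : ι) = j l := ⟨l, rfl⟩
            have h2 : Classical.choose h = l := j.injective (Subtype.ext (Classical.choose_spec h))
            have h3 : μ (some (j l : ι)) ≠ μ none := by rw [hj]; exact hbne
            simp only [Function.comp, hc]
            rw [if_neg h3, dif_pos h, h2]
            exact G.q_eq _ _
        · intro i hi
          rw [Set.mem_ofPred_eq] at hi ⊢
          intro h1
          apply hi
          simp only [Function.comp, hc]
          rw [if_pos h1]
      have := Gen.comp G.gen hF (c ∘ z) hgl φ
      rw [← Function.comp_assoc, hcomp] at this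
      exact this
  intro μ
  exact main _ μ rfl

end Pool.Agent.R866.GR
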