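import Pool.Agent.R866.GR.Defs

/-!
# MP_b06d56_al, project GR, piece GR-W (helper780): paths in the cube
-/

namespace Pool.Agent.R866.GR

namespace PathAux

/-- The points on the paths. -/
inductive Pt (U : Type) (k : ℕ) : Type
  | E : U → Pt U k
  | D : U → Pt U k
  | a : U → Fin k → Pt U k
  | b : U → Fin k → Pt U k
  | c : U → Fin k → Pt U k
  | d : U → Fin k → Pt U k

variable {U : Type} [DecidableEq U] {k : ℕ}

/-- The coordinates of the points. -/
def enc (π : U → U) : Pt U k → Kap U k → Bool
  | .E _, .z => true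
  | .E u, .x w => decide (w = u)
  | .E _, .y _ => false
  | .E _, .e _ _ => false
  | .D _, .z => false
  | .D _, .x _ => false
  | .D u, .y w => decide (w = π u)
  | .D _, .e _ _ => false
  | .a _ _, .z => true
  | .a u _, .x w => decide (w = u)
  | .a _ _, .y _ => false
  | .a u l, .e w m => decide (w = u) && decide (m = l)
  | .b _ _, .z => true
  | .b _ _, .x _ => false
  | .b _ _, .y _ => false
  | .b u l, .e w m => decide (w = u) && decide (m = l)
  | .c _ _, .z => true
  | .c _ _, .x _ => false
  | .c u _, .y w => decide (w = π u)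
  | .c u l, .e w m => decide (w = u) && decide (m = l)
  | .d _ _, .z => false
  | .d _ _, .x _ => false
  | .d u _, .y w => decide (w = π u)
  | .d u l, .e w m => decide (w = u) && decide (m = l)

theorem enc_inj {π : U → U} (hπ : Function.Injective π) :
    Function.Injective (enc (k := k) π) := by
  intro p p' h
  have hz := congrFun h Kap.z
  have hx : ∀ w, enc π p (Kap.x w) = enc π p' (Kap.x w) := fun w => congrFun h _
  have hy : ∀ w, enc π p (Kap.y w) = enc π p' (Kap.y w) := fun w => congrFun h _
  have he : ∀ w m, enc π p (Kap.e w m) = enc π p' (Kap.e w m) := fun w m => congrFun h _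
  clear h
  rcases p with u | u | ⟨u, l⟩ | ⟨u, l⟩ | ⟨u, l⟩ | ⟨u, l⟩ <;>
  rcases p' with u' | u' | ⟨u', l'⟩ | ⟨u', l'⟩ | ⟨u', l'⟩ | ⟨u', l'⟩ <;>
  simp only [enc] at hz hx hy he
  all_goals first
    | exact absurd hz (by decide)
    | (exfalso; have := he u l; simp at this; done)
    | (exfalso; have := he u' l'; simp at this; done)
    | (exfalso; have := hx u; simp at this; done)
    | (exfalso; have := hx u'; simp at this; done)
    | (exfalso; have := hy (π u); simp at this; done)
    | (exfalso; have := hy (π u'); simp at this; done)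
    | (have h1 := he u l; simp at h1; rw [h1.1, h1.2])
    | (have h1 := hx u; simp at h1; rw [h1])
    | (have h1 := hy (π u); simp at h1; rw [hπ h1])

/-- The partner of a point in the tiling of index `l₀`. -/
def part (l₀ : Fin k) : Pt U k → Pt U k
  | .E u => .a u l₀
  | .D u => .d u l₀
  | .a u l => if l = l₀ then .E u else .b u l
  | .b u l => if l = l₀ then .c u l else .a u l
  | .c u l => if l = l₀ then .b u l else .d u l
  | .d u l => if l = l₀ then .D u else .c u l

/-- The direction of the tile. -/
def dr (π : U → U) (l₀ : Fin k) : Pt U k → Kap U k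
  | .E u => .e u l₀
  | .D u => .e u l₀
  | .a u l => if l = l₀ then .e u l else .x u
  | .b u l => if l = l₀ then .y (π u) else .x u
  | .c u l => if l = l₀ then .y (π u) else .z
  | .d u l => if l = l₀ then .e u l else .z

omit [DecidableEq U] in
theorem dr_part (π : U → U) (l₀ : Fin k) (p : Pt U k) : dr π l₀ (part l₀ p) = dr π l₀ p := by
  rcases p with u | u | ⟨u, l⟩ | ⟨u, l⟩ | ⟨u, l⟩ | ⟨u, l⟩ <;> simp only [part, dr, if_true] <;>
  by_cases h : l = l₀ <;> simp [h]

theorem flip_enc (π : U → U) (l₀ : Fin k) (p : Pt U k) :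
    flip (enc π p) (dr π l₀ p) = enc π (part l₀ p) := by
  funext κ
  unfold flip
  rcases p with u | u | ⟨u, l⟩ | ⟨u, l⟩ | ⟨u, l⟩ | ⟨u, l⟩
  · rcases κ with _ | w | w | ⟨w, m⟩ <;> simp [Function.update_apply, enc, part, dr]
  · rcases κ with _ | w | w | ⟨w, m⟩ <;> simp [Function.update_apply, enc, part, dr]
  · by_cases h : l = l₀
    · subst h
      rcases κ with _ | w | w | ⟨w, m⟩ <;> simp [Function.update_apply, enc, part, dr]
      tauto
    · rcases κ with _ | w | w | ⟨w, m⟩ <;> simp [Function.update_apply, enc, part, dr, h]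
  · by_cases h : l = l₀
    · subst h
      rcases κ with _ | w | w | ⟨w, m⟩ <;> simp [Function.update_apply, enc, part, dr]
    · rcases κ with _ | w | w | ⟨w, m⟩ <;> simp [Function.update_apply, enc, part, dr, h]
  · by_cases h : l = l₀
    · subst h
      rcases κ with _ | w | w | ⟨w, m⟩ <;> simp [Function.update_apply, enc, part, dr]
    · rcases κ with _ | w | w | ⟨w, m⟩ <;> simp [Function.update_apply, enc, part, dr, h]
  · by_cases h : l = l₀
    · subst h
      rcases κ with _ | w | w | ⟨w, m⟩ <;> simp [Function.update_apply, enc, part, dr]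
      tauto
    · rcases κ with _ | w | w | ⟨w, m⟩ <;> simp [Function.update_apply, enc, part, dr, h]

/-- A function which is constant on the tiles is tiled. -/
theorem tiled_of {B J κ P : Type} [DecidableEq κ] (en : J → P → κ → Bool)
    (hinj : ∀ i, Function.Injective (en i)) (val : J → P → B) (bg : B)
    (pt : P → P) (di : J → P → κ)
    (h1 : ∀ i p, flip (en i p) (di i p) = en i (pt p))
    (h2 : ∀ i p, di i (pt p) = di i p) (h3 : ∀ i p, val i (pt p) = val i p)
    (Ψ : Option (J × (κ → Bool)) → B) (hΨ0 : Ψ none = bg)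
    (hΨ1 : ∀ i p, Ψ (some (i, en i p)) = val i p)
    (hΨ2 : ∀ i t, (∀ p, en i p ≠ t) → Ψ (some (i, t)) = bg) : Tiled Ψ := by
  classical
  have hdir : ∀ (i : J) (p : P),
      (if h : ∃ p', en i p' = en i p then some (di i h.choose) else none) = some (di i p) := by
    intro i p
    have h : ∃ p', en i p' = en i p := ⟨p, rfl⟩
    rw [dif_pos h]
    rw [hinj i h.choose_spec]
  refine ⟨fun i t => if h : ∃ p, en i p = t then some (di i h.choose) else none, ?_, ?_⟩
  · intro i t d hd
    by_cases h : ∃ p, en i p = t
    · obtain ⟨p, rfl⟩ := h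
      beta_reduce at hd ⊢
      rw [hdir i p] at hd
      obtain rfl : di i p = d := Option.some.inj hd
      rw [h1 i p, hdir i (pt p), h2 i p, hΨ1, hΨ1, h3]
      exact ⟨rfl, rfl⟩
    · beta_reduce at hd
      rw [dif_neg h] at hd
      exact absurd hd (by simp)
  · intro i t hd
    by_cases h : ∃ p, en i p = t
    · obtain ⟨p, rfl⟩ := h
      beta_reduce at hd
      rw [hdir i p] at hd
      exact absurd hd (by simp)
    · rw [hΨ0]
      exact hΨ2 i t (fun p hp => h ⟨p, hp⟩)

theorem exists_perm {A U : Type} [Fintype U] (a b : U → A)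
    (h : ∀ v, ({u : U | a u = v}.ncard : ℤ) = ({u : U | b u = v}.ncard : ℤ)) :
    ∃ π : U ≃ U, ∀ u, b (π u) = a u := by
  have h' : ∀ v, Nonempty ({u // a u = v} ≃ {u // b u = v}) := by
    intro v
    have := h v
    have h2 : {u : U | a u = v}.ncard = {u : U | b u = v}.ncard := by exact_mod_cast this
    rw [← Nat.card_coe_set_eq, ← Nat.card_coe_set_eq] at h2
    exact Finite.card_eq.mp h2
  exact ⟨Equiv.ofFiberEquiv (fun v => (h' v).some), fun u => Equiv.ofFiberEquiv_map _ u⟩

theorem pos_true (π : U → U) (u : U) : pos (k := k) (true, u) = enc π (.E u) := by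
  funext κ
  rcases κ with _ | w | w | ⟨w, m⟩ <;> simp [pos, enc]

theorem pos_false (π : U → U) (u : U) : pos (k := k) (false, π u) = enc π (.D u) := by
  funext κ
  rcases κ with _ | w | w | ⟨w, m⟩ <;> simp [pos, enc]

end PathAux

open PathAux in
theorem path : stmPath := by
  classical
  intro A O k X G U J _ instU _ F hF hT f hbal Ψ hΨ0 hΨ1 hΨ2
  -- the permutations
  have hπ : ∀ i : J, ∃ π : U ≃ U, ∀ u, f (some (i, false, π u)) = f (some (i, true, u)) := by
    intro i
    refine exists_perm (fun u => f (some (i, true, u))) (fun u => f (some (i, false, u)))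
      (fun v => ?_)
    have := hbal i v
    rw [Nat.cast_zero, zero_dvd_iff, sub_eq_zero] at this
    exact this
  choose π hπ using hπ
  have hinj : ∀ i, Function.Injective (enc (k := k) (π i)) := fun i => enc_inj (π i).injective
  -- the map to the gadget
  obtain ⟨vl, hvl⟩ : ∃ vl : J → Pt U k → X, vl = fun i p => match p with
    | .E u => G.s (f (some (i, true, u)))
    | .D u => G.s (f (some (i, true, u)))
    | .a u l => G.q (f (some (i, true, u))) l
    | .b u l => G.q (f (some (i, true, u))) l
    | .c u l => G.q (f (some (i, true, u))) l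
    | .d u l => G.q (f (some (i, true, u))) l := ⟨_, rfl⟩
  obtain ⟨C, hC⟩ : ∃ C : Option (J × (Kap U k → Bool)) → X, C = fun w => match w with
    | none => G.star
    | some (i, t) => if h : ∃ p, enc (π i) p = t then vl i h.choose else G.star := ⟨_, rfl⟩
  have hC0 : C none = G.star := by rw [hC]
  have hC1 : ∀ i p, C (some (i, enc (π i) p)) = vl i p := by
    intro i p
    have h : ∃ p', enc (π i) p' = enc (π i) p := ⟨p, rfl⟩
    rw [hC]
    change (if h : ∃ p', enc (π i) p' = enc (π i) p then vl i h.choose else G.star) = vl i p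
    rw [dif_pos h, hinj i h.choose_spec]
  have hC2 : ∀ i t, (∀ p, enc (π i) p ≠ t) → C (some (i, t)) = G.star := by
    intro i t h
    rw [hC]
    change (if h : ∃ p', enc (π i) p' = t then vl i h.choose else G.star) = G.star
    rw [dif_neg]
    rintro ⟨p, hp⟩
    exact h p hp
  obtain ⟨φ, hφ⟩ : ∃ φ : X → A, φ = fun x => if h : ∃ v, G.s v = x then h.choose else f none :=
    ⟨_, rfl⟩
  have hφ1 : ∀ v, φ (G.s v) = v := by
    intro v
    have h : ∃ v', G.s v' = G.s v := ⟨v, rfl⟩
    rw [hφ]
    beta_reduce
    rw [dif_pos h]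
    exact G.s_inj h.choose_spec
  have hφ2 : ∀ x, (∀ w, x ≠ G.s w) → φ x = f none := by
    intro x hx
    rw [hφ]
    beta_reduce
    rw [dif_neg]
    rintro ⟨v, hv⟩
    exact hx v hv.symm
  have key : Ψ = φ ∘ C := by
    funext w
    rcases w with _ | ⟨i, t⟩
    · rw [Function.comp_apply, hC0, hφ2 _ G.star_ne, hΨ0]
    · by_cases h : ∃ p, enc (π i) p = t
      · obtain ⟨p, rfl⟩ := h
        rw [Function.comp_apply, hC1]
        have hnp : ∀ p' : Pt U k, (∀ u, p' ≠ .E u) → (∀ u, p' ≠ .D u) →
            Ψ (some (i, enc (π i) p')) = f none := by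
          intro p' hE hD
          apply hΨ2
          rintro ⟨b, u⟩ hb
          cases b with
          | true =>
            rw [pos_true (π i) u] at hb
            exact hE u (hinj i hb).symm
          | false =>
            obtain ⟨u', rfl⟩ := (π i).surjective u
            rw [pos_false (π i) u'] at hb
            exact hD u' (hinj i hb).symm
        rcases p with u | u | ⟨u, l⟩ | ⟨u, l⟩ | ⟨u, l⟩ | ⟨u, l⟩
        · rw [← pos_true, hΨ1, hvl]
          exact (hφ1 _).symm
        · rw [← pos_false, hΨ1, hπ, hvl]
          exact (hφ1 _).symm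
        all_goals
          rw [hnp _ (fun u h => by cases h) (fun u h => by cases h), hvl]
          exact (hφ2 _ (G.q_ne _ _)).symm
      · have h' : ∀ p, enc (π i) p ≠ t := fun p hp => h ⟨p, hp⟩
        rw [Function.comp_apply, hC2 i t h', hφ2 _ G.star_ne]
        apply hΨ2
        rintro ⟨b, u⟩ hb
        cases b with
        | true => exact h' _ ((pos_true (π i) u).symm.trans hb)
        | false =>
          obtain ⟨u', rfl⟩ := (π i).surjective u
          exact h' _ ((pos_false (π i) u').symm.trans hb)
  rw [key]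
  refine Gen.comp G.gen hF C (fun l => hT _ ?_) φ
  refine tiled_of (fun i => enc (π i)) hinj (fun i p => G.g l (vl i p)) (G.g l G.star)
    (part l) (fun i => dr (π i) l) (fun i p => flip_enc (π i) l p) (fun i p => dr_part (π i) l p)
    ?_ _ ?_ ?_ ?_
  · intro i p
    rw [hvl]
    rcases p with u | u | ⟨u, l'⟩ | ⟨u, l'⟩ | ⟨u, l'⟩ | ⟨u, l'⟩ <;>
    simp only [part]
    · exact G.q_eq _ _
    · exact G.q_eq _ _
    all_goals
      by_cases h : l' = l
      · subst h
        simp only [if_true]
        try exact (G.q_eq _ _).symm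
      · simp only [if_neg h]
  · rw [Function.comp_apply, hC0]
  · intro i p
    rw [Function.comp_apply, hC1]
  · intro i t h
    rw [Function.comp_apply, hC2 i t h]

end Pool.Agent.R866.GR
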