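import Pool.Agent.R866.GR.Defs

/-!
# GR-P: placement of cubes
-/

namespace Pool.Agent.R866.GR

open Classical

theorem place : stmPlace := by
  intro A N d F hG J κ _ _ _ T τ e base z hT he heT hz Ψ hΨ
  obtain ⟨dir, hdir, hnone⟩ := hΨ
  -- both points of a tile
  have hup : ∀ i t δ, dir i t = some δ → dir i (Function.update t δ false) = some δ ∧
      Ψ (some (i, Function.update t δ false)) = Ψ (some (i, t)) := by
    intro i t δ h
    by_cases ht : t δ = false
    · have : Function.update t δ false = t := by rw [← ht, Function.update_eq_self]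
      rw [this]
      exact ⟨h, rfl⟩
    · have ht' : t δ = true := by simpa using ht
      have : Function.update t δ false = flip t δ := by
        unfold flip
        rw [ht']
        rfl
      rw [this]
      exact hdir i t δ h
  let ι : Type := {p : J × (κ → Bool) × κ // dir p.1 p.2.1 = some p.2.2 ∧ p.2.1 p.2.2 = false}
  let T' : ι → Finset (Fin N) := fun p => (T p.1.1).erase (e p.1.1 p.1.2.2)
  let τ' : ι → Fin N → Bool := fun p l =>
    if h : ∃ a, e p.1.1 a = l then xor (p.1.2.1 h.choose) (xor (τ p.1.1 l) (base h.choose))
    else τ p.1.1 l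
  have hτ1 : ∀ (p : ι) (a : κ), τ' p (e p.1.1 a) =
      xor (p.1.2.1 a) (xor (τ p.1.1 (e p.1.1 a)) (base a)) := by
    intro p a
    have h : ∃ a', e p.1.1 a' = e p.1.1 a := ⟨a, rfl⟩
    have h2 : h.choose = a := he _ h.choose_spec
    change (if h : ∃ a', e p.1.1 a' = e p.1.1 a then _ else _) = _
    rw [dif_pos h, h2]
  have hτ2 : ∀ (p : ι) (l : Fin N), (∀ a, e p.1.1 a ≠ l) → τ' p l = τ p.1.1 l := by
    intro p l hl
    have h : ¬ ∃ a', e p.1.1 a' = l := fun ⟨a, ha⟩ => hl a ha
    change (if h : ∃ a', e p.1.1 a' = l then _ else _) = _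
    rw [dif_neg h]
  -- description of the cells
  have hcell : ∀ (p : ι) (y : Fin N → Bool), (∀ l ∈ T' p, y l = τ' p l) ↔
      ∃ t, z y = some (p.1.1, t) ∧ dir p.1.1 t = some p.1.2.2 ∧
        Function.update t p.1.2.2 false = p.1.2.1 := by
    rintro ⟨⟨i, t0, δ⟩, hp1, hp2⟩ y
    constructor
    · intro h
      have ht : ∀ a, a ≠ δ → xor (y (e i a)) (xor (τ i (e i a)) (base a)) = t0 a := by
        intro a ha
        have hmem : e i a ∈ T' ⟨⟨i, t0, δ⟩, hp1, hp2⟩ :=
          Finset.mem_erase.mpr ⟨fun h' => ha (he i h'), heT i a⟩
        have h1 := h _ hmem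
        rw [hτ1 ⟨⟨i, t0, δ⟩, hp1, hp2⟩ a] at h1
        change y (e i a) = xor (t0 a) (xor (τ i (e i a)) (base a)) at h1
        rw [h1]
        cases t0 a <;> cases τ i (e i a) <;> cases base a <;> rfl
      refine ⟨fun a => xor (y (e i a)) (xor (τ i (e i a)) (base a)), ?_, ?_, ?_⟩
      · rw [hz]
        refine ⟨?_, fun a => rfl⟩
        intro l hl hal
        have hmem : l ∈ T' ⟨⟨i, t0, δ⟩, hp1, hp2⟩ :=
          Finset.mem_erase.mpr ⟨fun h' => hal δ h'.symm, hl⟩
        have h1 := h _ hmem
        rw [hτ2 ⟨⟨i, t0, δ⟩, hp1, hp2⟩ l hal] at h1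
        exact h1
      · change dir i _ = some δ
        set t : κ → Bool := fun a => xor (y (e i a)) (xor (τ i (e i a)) (base a)) with htdef
        by_cases h2 : t δ = false
        · have : t = t0 := by
            funext a
            by_cases ha : a = δ
            · subst ha
              rw [h2]
              exact hp2.symm
            · exact ht a ha
          rw [this]
          exact hp1
        · have : t = flip t0 δ := by
            funext a
            by_cases ha : a = δ
            · subst ha
              unfold flip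
              rw [Function.update_self]
              have h3 : t0 a = false := hp2
              rw [h3]
              simpa using h2
            · unfold flip
              rw [Function.update_of_ne ha]
              exact ht a ha
          rw [this]
          exact (hdir i t0 δ hp1).1
      · change Function.update _ δ false = t0
        funext a
        by_cases ha : a = δ
        · subst ha
          rw [Function.update_self]
          exact hp2.symm
        · rw [Function.update_of_ne ha]
          exact ht a ha
    · rintro ⟨t, h1, h2, h3⟩ l hl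
      change z y = some (i, t) at h1
      change dir i t = some δ at h2
      change Function.update t δ false = t0 at h3
      rw [hz] at h1
      have hl' : l ≠ e i δ ∧ l ∈ T i := Finset.mem_erase.mp hl
      by_cases hal : ∃ a, e i a = l
      · obtain ⟨a, rfl⟩ := hal
        have haδ : a ≠ δ := by rintro rfl; exact hl'.1 rfl
        rw [hτ1 ⟨⟨i, t0, δ⟩, hp1, hp2⟩ a]
        change y (e i a) = xor (t0 a) (xor (τ i (e i a)) (base a))
        have h4 : t0 a = t a := by rw [← h3, Function.update_of_ne haδ]
        rw [h4, h1.2 a]
        cases y (e i a) <;> cases τ i (e i a) <;> cases base a <;> rfl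
      · have hal' : ∀ a, e i a ≠ l := fun a ha => hal ⟨a, ha⟩
        rw [hτ2 ⟨⟨i, t0, δ⟩, hp1, hp2⟩ l hal']
        exact h1.1 l hl'.2 hal'
  let z' : (Fin N → Bool) → Option ι := fun y =>
    if h : ∃ p : ι, ∀ l ∈ T' p, y l = τ' p l then some h.choose else none
  have hz' : ∀ (p : ι) (y : Fin N → Bool), z' y = some p ↔ ∀ l ∈ T' p, y l = τ' p l := by
    intro p y
    constructor
    · intro h
      by_cases h1 : ∃ p : ι, ∀ l ∈ T' p, y l = τ' p l
      · have h2 : z' y = some h1.choose := dif_pos h1
        rw [h2, Option.some.injEq] at h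
        rw [← h]
        exact h1.choose_spec
      · have h2 : z' y = none := dif_neg h1
        rw [h2] at h
        exact absurd h (by simp)
    · intro h
      have h1 : ∃ p : ι, ∀ l ∈ T' p, y l = τ' p l := ⟨p, h⟩
      have h2 : z' y = some h1.choose := dif_pos h1
      rw [h2, Option.some.injEq]
      obtain ⟨t, a1, a2, a3⟩ := (hcell p y).mp h
      obtain ⟨t', b1, b2, b3⟩ := (hcell h1.choose y).mp h1.choose_spec
      rw [a1, Option.some.injEq, Prod.mk.injEq] at b1
      obtain ⟨c1, c2⟩ := b1
      subst c2
      apply Subtype.ext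
      apply Prod.ext
      · exact c1.symm
      · rw [← c1, a2, Option.some.injEq] at b2
        apply Prod.ext
        · rw [← b3, ← a3, b2]
        · exact b2.symm
  let μ : Option ι → A := fun o => match o with
    | none => Ψ none
    | some p => Ψ (some (p.1.1, p.1.2.1))
  have hmain : Ψ ∘ z = μ ∘ z' := by
    funext y
    change Ψ (z y) = μ (z' y)
    by_cases h1 : ∃ p : ι, ∀ l ∈ T' p, y l = τ' p l
    · obtain ⟨p, hp⟩ := h1
      rw [(hz' p y).mpr hp]
      obtain ⟨t, a1, a2, a3⟩ := (hcell p y).mp hp
      change Ψ (z y) = Ψ (some (p.1.1, p.1.2.1))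
      rw [a1, ← a3]
      exact ((hup _ _ _ a2).2).symm
    · have h2 : z' y = none := dif_neg h1
      rw [h2]
      change Ψ (z y) = Ψ none
      rcases hzy : z y with _ | ⟨i, t⟩
      · rfl
      · rcases hd : dir i t with _ | δ
        · exact hnone i t hd
        · exfalso
          apply h1
          refine ⟨⟨(i, Function.update t δ false, δ), (hup i t δ hd).1, ?_⟩, ?_⟩
          · change Function.update t δ false δ = false
            exact Function.update_self _ _ _
          · rw [hcell]
            exact ⟨t, hzy, hd, rfl⟩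
  rw [hmain]
  apply hG ι T' τ' z' _ hz' μ
  intro p
  change ((T p.1.1).erase (e p.1.1 p.1.2.2)).card = d
  rw [Finset.card_erase_of_mem (heT _ _), hT]
  rfl

end Pool.Agent.R866.GR
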