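import Pool.Agent.R866.GR.Defs

/-!
# Piece GR-S: the induction step on the number of fixed coordinates
-/

namespace Pool.Agent.R866.GR

open Classical

/-- Two different cells fix some common coordinate to different values. -/
theorem st_sep {N : ℕ} {ι : Type} {T : ι → Finset (Fin N)} {τ : ι → Fin N → Bool}
    {z : (Fin N → Bool) → Option ι} (hz : ∀ i y, z y = some i ↔ ∀ l ∈ T i, y l = τ i l)
    {i j : ι} (hij : i ≠ j) : ∃ l, l ∈ T i ∧ l ∈ T j ∧ τ i l ≠ τ j l := by
  by_contra hcon
  push Not at hcon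
  have h1 : z (fun l => if l ∈ T i then τ i l else τ j l) = some i := by
    rw [hz]
    intro l hl
    rw [if_pos hl]
  have h2 : z (fun l => if l ∈ T i then τ i l else τ j l) = some j := by
    rw [hz]
    intro l hl
    by_cases hli : l ∈ T i
    · rw [if_pos hli]
      exact hcon l hli hl
    · rw [if_neg hli]
  rw [h1] at h2
  exact hij (Option.some.inj h2)

/-- Choice of the free directions of the enlarged cells. -/
theorem st_dirs {N : ℕ} {J κ : Type} [Fintype J] [Fintype κ] {T : J → Finset (Fin N)}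
    (L : J → J → Fin N) {D R : ℕ} (hT : ∀ i, (T i).card = D) (hJ : Fintype.card J ≤ R)
    (hκ : Fintype.card κ + 2 * R ≤ D) (i : J) :
    ∃ e : κ → Fin N, Function.Injective e ∧ (∀ a, e a ∈ T i) ∧
      (∀ a j, e a ≠ L i j) ∧ ∀ a j, e a ≠ L j i := by
  obtain ⟨Rm, hRm⟩ : ∃ Rm : Finset (Fin N), Rm = (Finset.univ.image fun j => L i j) ∪
      (Finset.univ.image fun j => L j i) := ⟨_, rfl⟩
  have hcard : Rm.card ≤ 2 * R := by
    rw [hRm]
    refine (Finset.card_union_le _ _).trans ?_
    have h1 : (Finset.univ.image fun j => L i j).card ≤ Fintype.card J := Finset.card_image_le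
    have h2 : (Finset.univ.image fun j => L j i).card ≤ Fintype.card J := Finset.card_image_le
    omega
  have hle : Fintype.card κ ≤ Fintype.card {x // x ∈ T i \ Rm} := by
    rw [Fintype.card_coe]
    have h1 := Finset.le_card_sdiff Rm (T i)
    rw [hT i] at h1
    omega
  obtain ⟨φ⟩ := Function.Embedding.nonempty_of_card_le hle
  have hφ : ∀ a, ((φ a : {x // x ∈ T i \ Rm}) : Fin N) ∈ T i ∧
      ((φ a : {x // x ∈ T i \ Rm}) : Fin N) ∉ Rm := fun a => Finset.mem_sdiff.1 (φ a).2
  refine ⟨fun a => (φ a : Fin N), fun a b h => φ.injective (Subtype.ext h), fun a => (hφ a).1,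
    fun a j h => (hφ a).2 ?_, fun a j h => (hφ a).2 ?_⟩
  · have h1 : L i j ∈ Rm := by
      rw [hRm, Finset.mem_union]
      exact Or.inl (Finset.mem_image.2 ⟨j, Finset.mem_univ _, rfl⟩)
    rw [← h] at h1
    exact h1
  · have h1 : L j i ∈ Rm := by
      rw [hRm, Finset.mem_union]
      exact Or.inr (Finset.mem_image.2 ⟨j, Finset.mem_univ _, rfl⟩)
    rw [← h] at h1
    exact h1

/-- **Piece GR-S.** -/
theorem step : stmStep := by
  intro hloc hplace A _ O k X G κ _ _ base hcube N d F hF hcardκ hgood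
  intro ι _ T τ z hT hz
  refine hloc A O k X G (Fin N → Bool) ι F hF z fun μ hμ => ?_
  -- the active indices
  have hJcard : Fintype.card {i : ι // μ (some i) ≠ μ none} ≤ Fintype.card A * k := by
    rw [← Nat.card_eq_fintype_card]
    exact hμ
  have hsep : ∀ i j : {i : ι // μ (some i) ≠ μ none}, ∃ l, i ≠ j →
      l ∈ T i ∧ l ∈ T j ∧ τ i l ≠ τ j l := by
    intro i j
    by_cases hij : i = j
    · refine ⟨?_, fun h => absurd hij h⟩
      have h1 : (T i).Nonempty := by
        rw [← Finset.card_pos, hT]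
        omega
      exact h1.choose
    · obtain ⟨l, hl⟩ := st_sep hz (i := i.1) (j := j.1) fun h => hij (Subtype.ext h)
      exact ⟨l, fun _ => hl⟩
  choose L hL using hsep
  have hdirs := st_dirs (κ := κ) (T := fun i : {i : ι // μ (some i) ≠ μ none} => T i.1) L
    (D := d + 1) (R := Fintype.card A * k) (fun i => hT i.1) hJcard hcardκ
  choose e he heT heL heL' using hdirs
  -- the enlarged cells are disjoint
  have huniq : ∀ (i j : {i : ι // μ (some i) ≠ μ none}) (y : Fin N → Bool),
      (∀ l ∈ T i.1, (∀ a, e i a ≠ l) → y l = τ i.1 l) →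
      (∀ l ∈ T j.1, (∀ a, e j a ≠ l) → y l = τ j.1 l) → i = j := by
    intro i j y hi hj
    by_contra hij
    obtain ⟨h1, h2, h3⟩ := hL i j hij
    apply h3
    rw [← hi _ h1 fun a => heL i a j, ← hj _ h2 fun a => heL' j a i]
  -- the map to the disjoint union of cubes
  obtain ⟨z', hz'⟩ : ∃ z' : (Fin N → Bool) →
      Option ({i : ι // μ (some i) ≠ μ none} × (κ → Bool)), ∀ i t y, z' y = some (i, t) ↔
      (∀ l ∈ T i.1, (∀ a, e i a ≠ l) → y l = τ i.1 l) ∧
        ∀ a, t a = xor (y (e i a)) (xor (τ i.1 (e i a)) (base a)) := by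
    refine ⟨fun y => if h : ∃ i : {i : ι // μ (some i) ≠ μ none},
      ∀ l ∈ T i.1, (∀ a, e i a ≠ l) → y l = τ i.1 l then
        some (h.choose, fun a => xor (y (e h.choose a)) (xor (τ h.choose.1 (e h.choose a)) (base a)))
        else none, ?_⟩
    intro i t y
    beta_reduce
    by_cases h : ∃ i : {i : ι // μ (some i) ≠ μ none},
        ∀ l ∈ T i.1, (∀ a, e i a ≠ l) → y l = τ i.1 l
    · rw [dif_pos h]
      have hc := h.choose_spec
      constructor
      · intro h1
        have h2 := Option.some.inj h1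
        have h3 : h.choose = i := congrArg Prod.fst h2
        have h4 := congrArg Prod.snd h2
        rw [h3] at hc
        refine ⟨hc, fun a => ?_⟩
        have h5 : xor (y (e h.choose a)) (xor (τ h.choose.1 (e h.choose a)) (base a)) = t a :=
          congrFun h4 a
        rw [h3] at h5
        exact h5.symm
      · rintro ⟨h1, h2⟩
        have h3 : h.choose = i := huniq _ _ y hc h1
        refine congrArg some (Prod.ext h3 ?_)
        funext a
        change xor (y (e h.choose a)) (xor (τ h.choose.1 (e h.choose a)) (base a)) = t a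
        rw [h2 a, h3]
    · rw [dif_neg h]
      refine ⟨fun h1 => absurd h1 (by simp), fun h1 => absurd ⟨i, h1.1⟩ h⟩
  -- the function on the cubes
  obtain ⟨Ψ, hΨ0, hΨ1⟩ : ∃ Ψ : Option ({i : ι // μ (some i) ≠ μ none} × (κ → Bool)) → A,
      Ψ none = μ none ∧ ∀ i t, Ψ (some (i, t)) = if t = base then μ (some i.1) else μ none :=
    ⟨fun o => match o with
      | none => μ none
      | some (i, t) => if t = base then μ (some i.1) else μ none, rfl, fun _ _ => rfl⟩
  have hmem : Ψ ∈ {Ψ : Option ({i : ι // μ (some i) ≠ μ none} × (κ → Bool)) → A | Ψ ∘ z' ∈ F} := by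
    refine hcube {i : ι // μ (some i) ≠ μ none} _ (hF.comap z') ?_ Ψ ?_
    · intro Ψ' hΨ'
      exact hplace A N d F hgood {i : ι // μ (some i) ≠ μ none} κ (fun i => T i.1)
        (fun i => τ i.1) e base z' (fun i => hT i.1) he heT hz' Ψ' hΨ'
    · intro i t ht
      rw [hΨ1, if_neg ht, hΨ0]
  have hkey : ∀ (y : Fin N → Bool) (j : {i : ι // μ (some i) ≠ μ none}),
      z y = some j.1 ↔ z' y = some (j, base) := by
    intro y j
    rw [hz, hz']
    constructor
    · intro h1
      refine ⟨fun l hl _ => h1 l hl, fun a => ?_⟩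
      rw [h1 _ (heT j a)]
      cases τ j.1 (e j a) <;> cases base a <;> rfl
    · rintro ⟨h1, h2⟩ l hl
      by_cases h3 : ∀ a, e j a ≠ l
      · exact h1 l hl h3
      · push Not at h3
        obtain ⟨a, rfl⟩ := h3
        have h4 := h2 a
        revert h4
        cases y (e j a) <;> cases τ j.1 (e j a) <;> cases base a <;> simp
  have heq : μ ∘ z = Ψ ∘ z' := by
    funext y
    change μ (z y) = Ψ (z' y)
    by_cases h : ∃ j : {i : ι // μ (some i) ≠ μ none}, z y = some j.1
    · obtain ⟨j, hj⟩ := h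
      rw [(hkey y j).1 hj, hΨ1, if_pos rfl, hj]
    · have h1 : μ (z y) = μ none := by
        rcases hzy : z y with _ | i
        · rfl
        · by_contra hcon
          exact h ⟨⟨i, hcon⟩, hzy⟩
      rw [h1]
      rcases hzy : z' y with _ | ⟨i, t⟩
      · rw [hΨ0]
      · rw [hΨ1, if_neg]
        rintro rfl
        exact h ⟨i, (hkey y i).2 hzy⟩
  rw [heq]
  exact hmem

end Pool.Agent.R866.GR
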