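import Pool.Agent.R866.GR.Defs

/-! Piece GR-V (helper865): kernel vectors on disjoint blocks. -/

set_option autoImplicit false

namespace Pool.Agent.R866.GR

open Classical

namespace VecP

/-- there is a nonzero vector in the kernel -/
lemma ker {R : Type} [CommRing R] [Nontrivial R] {A : Type} [Fintype A] {k : ℕ} {m : ℕ}
    (hm : Fintype.card A * k < m) (c : Fin k → Fin m → A) :
    ∃ ζ : Fin m → R, ζ ≠ 0 ∧ ∀ l b, ∑ j, (if c l j = b then ζ j else 0) = 0 := by
  let L : (Fin m → R) →ₗ[R] (Fin k × A → R) :=
    { toFun := fun ζ q => ∑ j, (if c q.1 j = q.2 then ζ j else 0)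
      map_add' := by
        intro ζ ζ'
        funext q
        show ∑ j, (if c q.1 j = q.2 then (ζ + ζ') j else 0) = _ + _
        rw [← Finset.sum_add_distrib]
        refine Finset.sum_congr rfl fun j _ => ?_
        split_ifs
        · rfl
        · rw [add_zero]
      map_smul' := by
        intro r ζ
        funext q
        show ∑ j, (if c q.1 j = q.2 then (r • ζ) j else 0) = r * ∑ j, _
        rw [Finset.mul_sum]
        refine Finset.sum_congr rfl fun j _ => ?_
        split_ifs
        · rfl
        · rw [mul_zero] }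
  have hL : ¬ Function.Injective L := by
    intro h
    have := card_le_of_injective R L h
    rw [Fintype.card_prod, Fintype.card_fin, Fintype.card_fin] at this
    have e : k * Fintype.card A = Fintype.card A * k := mul_comm _ _
    omega
  rw [injective_iff_map_eq_zero, not_forall] at hL
  obtain ⟨ζ, hζ⟩ := hL
  rw [Classical.not_imp] at hζ
  refine ⟨ζ, hζ.2, fun l b => ?_⟩
  exact congrFun hζ.1 (l, b)

variable {A : Type} {X : Type} [Fintype X] {m : ℕ}

/-- a vector supported in blocks -/
noncomputable def blk (E : Option (A × Fin m) ↪ X) (ξ : A → Fin m → ℤ) (v : A) (x : X) : ℤ :=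
  ∑ j, if E (some (v, j)) = x then ξ v j else 0

lemma blk_sum {k : ℕ} (g : Fin k → X → A) (E : Option (A × Fin m) ↪ X) (ξ : A → Fin m → ℤ)
    (v : A) (l : Fin k) (b : A) :
    ∑ x ∈ Finset.univ.filter (fun x => g l x = b), blk E ξ v x =
      ∑ j, if g l (E (some (v, j))) = b then ξ v j else 0 := by
  unfold blk
  rw [Finset.sum_comm]
  refine Finset.sum_congr rfl fun j _ => ?_
  rw [Finset.sum_ite_eq]
  simp

omit [Fintype X] in
lemma blk_val (E : Option (A × Fin m) ↪ X) (ξ : A → Fin m → ℤ) (v w : A) (i : Fin m) :
    blk E ξ v (E (some (w, i))) = if v = w then ξ v i else 0 := by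
  unfold blk
  by_cases h : v = w
  · subst h
    rw [if_pos rfl, Finset.sum_eq_single i]
    · rw [if_pos rfl]
    · intro j _ hj
      rw [if_neg]
      intro h
      have := E.injective h
      simp only [Option.some.injEq, Prod.mk.injEq, true_and] at this
      exact hj this
    · intro h
      exact absurd (Finset.mem_univ _) h
  · rw [if_neg h]
    refine Finset.sum_eq_zero fun j _ => ?_
    rw [if_neg]
    intro h'
    have := E.injective h'
    simp only [Option.some.injEq, Prod.mk.injEq] at this
    exact h this.1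

end VecP

open VecP in
theorem vec : stmVec := by
  intro A _ k X _ g hX
  set m : ℕ := Fintype.card A * k + 1 with hm
  have hE : Nonempty (Option (A × Fin m) ↪ X) := by
    apply Function.Embedding.nonempty_of_card_le
    rw [Fintype.card_option, Fintype.card_prod, Fintype.card_fin]
    exact hX
  obtain ⟨E⟩ := hE
  have hstar : ∀ (v : A) (j : Fin m), E none ≠ E (some (v, j)) := by
    intro v j h
    have := E.injective h
    simp at this
  constructor
  · have h1 : ∀ v : A, ∃ ζ : Fin m → ℤ, ζ ≠ 0 ∧
        ∀ l b, ∑ j, (if g l (E (some (v, j))) = b then ζ j else 0) = 0 :=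
      fun v => ker (by omega) (fun l j => g l (E (some (v, j))))
    choose ζ hζ0 hζ using h1
    have h2 : ∀ v : A, ∃ j, ζ v j ≠ 0 := fun v => Function.ne_iff.mp (hζ0 v)
    choose j hj using h2
    set ν : ℕ := ∏ w : A, (ζ w (j w)).natAbs with hν
    have hdvd : ∀ v, ζ v (j v) ∣ (ν : ℤ) := by
      intro v
      rw [← Int.natAbs_dvd_natAbs, Int.natAbs_natCast]
      exact Finset.dvd_prod_of_mem _ (Finset.mem_univ v)
    choose c hc using hdvd
    refine ⟨ν, blk E (fun v i => c v * ζ v i), fun v => E (some (v, j v)), E none, ?_,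
      fun v => hstar v _, ?_, ?_⟩
    · refine Nat.one_le_iff_ne_zero.mpr (Finset.prod_ne_zero_iff.mpr fun w _ => ?_)
      exact Int.natAbs_ne_zero.mpr (hj w)
    · intro v l b
      rw [blk_sum]
      have : ∀ i, (if g l (E (some (v, i))) = b then c v * ζ v i else 0) =
          c v * (if g l (E (some (v, i))) = b then ζ v i else 0) := by
        intro i
        split_ifs
        · rfl
        · rw [mul_zero]
      rw [Finset.sum_congr rfl fun i _ => this i, ← Finset.mul_sum, hζ, mul_zero]
    · intro v w
      rw [blk_val]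
      by_cases h : v = w
      · subst h
        rw [if_pos rfl, if_pos rfl, hc v, mul_comm]
      · rw [if_neg h, if_neg h]
  · intro p hp
    have : Fact p.Prime := ⟨hp⟩
    have h1 : ∀ v : A, ∃ ζ : Fin m → ZMod p, ζ ≠ 0 ∧
        ∀ l b, ∑ j, (if g l (E (some (v, j))) = b then ζ j else 0) = 0 :=
      fun v => ker (by omega) (fun l j => g l (E (some (v, j))))
    choose ζ hζ0 hζ using h1
    have h2 : ∀ v : A, ∃ j, ζ v j ≠ 0 := fun v => Function.ne_iff.mp (hζ0 v)
    choose j hj using h2
    refine ⟨blk E (fun v i => (((ζ v (j v))⁻¹ * ζ v i).val : ℤ)), fun v => E (some (v, j v)),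
      E none, fun v => hstar v _, ?_, ?_⟩
    · intro v l b
      rw [blk_sum, ← ZMod.intCast_zmod_eq_zero_iff_dvd]
      push_cast
      have : ∀ i, (if g l (E (some (v, i))) = b then
          ((((ζ v (j v))⁻¹ * ζ v i).val : ℕ) : ZMod p) else 0) =
          (ζ v (j v))⁻¹ * (if g l (E (some (v, i))) = b then ζ v i else 0) := by
        intro i
        split_ifs
        · rw [ZMod.natCast_zmod_val]
        · rw [mul_zero]
      rw [Finset.sum_congr rfl fun i _ => this i, ← Finset.mul_sum, hζ, mul_zero]
    · intro v w
      rw [blk_val]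
      by_cases h : v = w
      · subst h
        rw [if_pos rfl, if_pos rfl, inv_mul_cancel₀ (hj v), ZMod.val_one]
        rfl
      · rw [if_neg h, if_neg h]

end Pool.Agent.R866.GR
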